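import Mathlib

/-!
# Linear algebra: products of reflections and the determinant identity

(1) `refl_prod`: a product of `b` reflections `1 - c_j w_j w_jᴴ J` is `1 - W S Wᴴ J` with `W : m × b`,
`S : b × b` and `det S = ∏ c_j`.  Induction on the list, adding the factor on the RIGHT (`List.reverseRec`):
`(1 - W S Wᴴ J)(1 - c w wᴴ J) = 1 - [W w] [[S, -c S (Wᴴ J w)], [0, c]] [W w]ᴴ J`; index `Fin b ⊕ Unit` or
`Fin (b+1)` through `finSumFinEquiv`; `det_fromBlocks_zero₂₁`.  (Or add the factor on the LEFT.)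

(2) `det_key`: in block coordinates `κ ⊕ μ`, `M₀ = fromBlocks 1 0 0 N`, `J = fromBlocks G 0 0 G'`,
`R = 1 - W S Wᴴ J`, `W = (W₁; W₂)`:
`1 - M₀ R = fromBlocks W₁ 0 (N W₂) 1 * fromBlocks (S W₁ᴴ G) (S W₂ᴴ G') 0 (1 - N)`, hence
`det (1 - M₀ R) = det W₁ * (det S * det W₁ᴴ * det G) * det (1 - N)`.

(3) `det_dec`: the coordinate free form; `det (1 - A B) = det (1 - B A)` is `Matrix.det_one_sub_mul_comm`.
-/

namespace Pool.Agent.H99.KR
open Matrix

section
variable {F : Type*} [Field F] [StarRing F]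

private lemma refl_aux {m : Type*} [Fintype m] [DecidableEq m] (J : Matrix m m F)
    (w : m → F) (c : F) (n : ℕ) (W : Matrix m (Fin n) F) (S : Matrix (Fin n) (Fin n) F) :
    ∃ (W' : Matrix m (Fin (n + 1)) F) (S' : Matrix (Fin (n + 1)) (Fin (n + 1)) F),
      ((1 : Matrix m m F) - c • Matrix.vecMulVec w (star w ᵥ* J)) * (1 - W * S * Wᴴ * J)
        = 1 - W' * S' * W'ᴴ * J ∧ S'.det = c * S.det := by
  let C : Matrix m Unit F := replicateCol Unit w
  have hv : Matrix.vecMulVec w (star w ᵥ* J) = C * Cᴴ * J := by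
    rw [vecMulVec_eq Unit, replicateRow_vecMul, conjTranspose_replicateCol, Matrix.mul_assoc]
  let e : Fin (n + 1) ≃ Unit ⊕ Fin n :=
    ((Equiv.sumComm Unit (Fin n)).trans
      ((Equiv.refl (Fin n)).sumCongr (Equiv.ofUnique Unit (Fin 1)))|>.trans finSumFinEquiv).symm
  let W₀ : Matrix m (Unit ⊕ Fin n) F := fromCols C W
  let S₀ : Matrix (Unit ⊕ Fin n) (Unit ⊕ Fin n) F :=
    fromBlocks (c • (1 : Matrix Unit Unit F)) (-(c • (Cᴴ * J * W * S))) 0 S
  refine ⟨W₀.submatrix id e, S₀.submatrix e e, ?_, ?_⟩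
  · have h1 : W₀.submatrix id e * S₀.submatrix e e * (W₀.submatrix id e)ᴴ = W₀ * S₀ * W₀ᴴ := by
      rw [conjTranspose_submatrix, submatrix_mul_equiv, submatrix_mul_equiv, submatrix_id_id]
    rw [h1, hv]
    have h2 : W₀ * S₀ * W₀ᴴ = c • (C * Cᴴ) - c • (C * (Cᴴ * J * W * S) * Wᴴ) + W * S * Wᴴ := by
      simp only [W₀, S₀]
      rw [conjTranspose_fromCols_eq_fromRows_conjTranspose, fromCols_mul_fromBlocks,
        fromCols_mul_fromRows]
      simp only [Matrix.mul_zero, add_zero, Matrix.mul_smul, Matrix.mul_one, Matrix.mul_neg,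
        Matrix.add_mul, Matrix.neg_mul, Matrix.smul_mul]
      abel
    rw [h2]
    simp only [Matrix.mul_sub, Matrix.sub_mul, Matrix.mul_one, Matrix.one_mul, Matrix.add_mul,
      Matrix.smul_mul, Matrix.mul_assoc]
    abel
  · rw [det_submatrix_equiv_self]
    simp only [S₀]
    rw [det_fromBlocks_zero₂₁]
    simp

lemma refl_prod {m : Type*} [Fintype m] [DecidableEq m] (J : Matrix m m F)
    (l : List ((m → F) × F)) :
    ∃ (W : Matrix m (Fin l.length) F) (S : Matrix (Fin l.length) (Fin l.length) F),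
      (l.map (fun p => (1 : Matrix m m F) - p.2 • Matrix.vecMulVec p.1 (star p.1 ᵥ* J))).prod
        = 1 - W * S * Wᴴ * J ∧ S.det = (l.map Prod.snd).prod := by
  induction l with
  | nil =>
    refine ⟨0, 1, ?_, ?_⟩
    · simp
    · simp
  | cons p l ih =>
    obtain ⟨W, S, h1, h2⟩ := ih
    obtain ⟨W', S', h3, h4⟩ := refl_aux J p.1 p.2 l.length W S
    refine ⟨W', S', ?_, ?_⟩
    · rw [List.map_cons, List.prod_cons, h1]
      exact h3
    · rw [List.map_cons, List.prod_cons, ← h2]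
      exact h4

lemma det_key {κ μ : Type*} [Fintype κ] [DecidableEq κ] [Fintype μ] [DecidableEq μ]
    (N : Matrix μ μ F) (G S W₁ : Matrix κ κ F) (G' : Matrix μ μ F) (W₂ : Matrix μ κ F) :
    (1 - fromBlocks 1 0 0 N * (1 - fromRows W₁ W₂ * S * (fromRows W₁ W₂)ᴴ * fromBlocks G 0 0 G')).det
      = (1 - N).det * G.det * S.det * (W₁.det * star W₁.det) := by
  have h : (1 : Matrix (κ ⊕ μ) (κ ⊕ μ) F) - fromBlocks 1 0 0 N *
      (1 - fromRows W₁ W₂ * S * (fromRows W₁ W₂)ᴴ * fromBlocks G 0 0 G')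
      = fromBlocks W₁ 0 (N * W₂) 1 * fromBlocks (S * W₁ᴴ * G) (S * W₂ᴴ * G') 0 (1 - N) := by
    rw [conjTranspose_fromRows_eq_fromCols_conjTranspose, fromRows_mul, fromRows_mul_fromCols,
      fromBlocks_multiply, fromBlocks_multiply, ← fromBlocks_one, sub_eq_add_neg _ (fromBlocks _ _ _ _),
      fromBlocks_neg, fromBlocks_add, fromBlocks_multiply, sub_eq_add_neg _ (fromBlocks _ _ _ _),
      fromBlocks_neg, fromBlocks_add]
    congr 1 <;>
      simp only [Matrix.mul_zero, Matrix.zero_mul, add_zero, zero_add, Matrix.one_mul,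
        Matrix.mul_one, Matrix.mul_neg, Matrix.mul_add, Matrix.mul_assoc, neg_neg,
        neg_add_rev, neg_zero] <;>
      abel
  rw [h, det_mul, det_fromBlocks_zero₁₂, det_fromBlocks_zero₂₁, det_mul, det_mul,
    det_conjTranspose, det_one]
  ring

/-- `M` has a `b`-dimensional fixed space with Gram determinant `γ`, and `d = det (1 - M)` on the orthogonal
complement. -/
def Dec {m : ℕ} (J M : Matrix (Fin m) (Fin m) F) (b : ℕ) (d γ : F) : Prop :=
  ∃ (k : ℕ) (Q : Matrix (Fin m) (Fin b ⊕ Fin k) F) (Q' : Matrix (Fin b ⊕ Fin k) (Fin m) F)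
    (N G' : Matrix (Fin k) (Fin k) F) (G : Matrix (Fin b) (Fin b) F),
    Q * Q' = 1 ∧ Q' * Q = 1 ∧ M * Q = Q * fromBlocks 1 0 0 N ∧ Qᴴ * J * Q = fromBlocks G 0 0 G' ∧
      (1 - N).det = d ∧ G.det = γ

/-- PROOF: `R = 1 - W S Wᴴ J` by `refl_prod`; put `W = Q Z`, `Z = Q' W = fromRows W₁ W₂`;
`1 - M R = 1 - M Q Q' R = 1 - (Q (M₀)) (Q' R)`, so `det (1 - M R) = det (1 - M₀ Q' R Q)`
(`det_one_sub_mul_comm`), and `Q' R Q = 1 - Z S Zᴴ (Qᴴ J Q)`.  Reindex `Fin l.length` to `Fin b`. -/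
lemma det_dec {m : ℕ} (J M : Matrix (Fin m) (Fin m) F) (b : ℕ) (d γ : F) (h : Dec J M b d γ)
    (l : List ((Fin m → F) × F)) (hl : l.length = b) :
    ∃ a : F, (1 - M * (l.map (fun p => (1 : Matrix (Fin m) (Fin m) F) -
        p.2 • Matrix.vecMulVec p.1 (star p.1 ᵥ* J))).prod).det
      = d * γ * (l.map Prod.snd).prod * (a * star a) := by
  subst hl
  obtain ⟨k, Q, Q', N, G', G, hQ1, hQ2, hM, hJ, hd, hγ⟩ := h
  obtain ⟨W, S, hR, hS⟩ := refl_prod J l
  rw [hR]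
  obtain ⟨Z, hZ⟩ : ∃ Z : Matrix (Fin l.length ⊕ Fin k) (Fin l.length) F, Z = Q' * W := ⟨_, rfl⟩
  have hW : W = Q * Z := by rw [hZ, ← Matrix.mul_assoc, hQ1, Matrix.one_mul]
  obtain ⟨M₀, hM₀⟩ : ∃ M₀ : Matrix (Fin l.length ⊕ Fin k) (Fin l.length ⊕ Fin k) F,
      M₀ = fromBlocks 1 0 0 N := ⟨_, rfl⟩
  have hM1 : M * Q = Q * M₀ := by
    rw [hM₀]
    exact hM
  have hM' : M = Q * M₀ * Q' := by
    rw [← hM1, Matrix.mul_assoc, hQ1, Matrix.mul_one]
  have h1 : Q' * (1 - W * S * Wᴴ * J) * Q = 1 - Z * S * Zᴴ * fromBlocks G 0 0 G' := by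
    rw [Matrix.mul_sub, Matrix.sub_mul, Matrix.mul_one, hQ2]
    congr 1
    rw [← hJ]
    have : Wᴴ = Zᴴ * Qᴴ := by rw [hW, conjTranspose_mul]
    rw [this, hZ]
    simp only [Matrix.mul_assoc]
  have h2 : (1 - M * (1 - W * S * Wᴴ * J)).det
      = (1 - M₀ * (1 - Z * S * Zᴴ * fromBlocks G 0 0 G')).det := by
    rw [← h1]
    have e1 : M * (1 - W * S * Wᴴ * J)
        = Q * (M₀ * (Q' * (1 - W * S * Wᴴ * J))) := by
      conv_lhs => rw [hM']
      simp only [Matrix.mul_assoc]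
    rw [e1, det_one_sub_mul_comm]
    simp only [Matrix.mul_assoc]
  refine ⟨Z.toRows₁.det, ?_⟩
  rw [h2, hM₀, ← fromRows_toRows Z, det_key, hd, hγ, hS, toRows₁_fromRows]

end

end Pool.Agent.H99.KR
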