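import Pool.Agent.H99.KR.Seq

/-!
# Unitarity of the Burau representation (Squier's form)

`F` is a field with an involution `star` and `star u = u⁻¹`.  The form `J` has diagonal entries `u + u⁻¹` and
off-diagonal entries `-1` next to the diagonal.  `<x, y> = star y ⬝ J x`.
PROOF: the matrix of `s i` is `1 - u • e_i e_iᴴ J` (`Mat_s`: `(e_iᴴ J x) = (u+u⁻¹) x_i - x_{i-1} - x_{i+1}`), and for a
vector `w` with `wᴴ J w = u + u⁻¹`, `c = u`: `(1 - c w wᴴ J)ᴴ J (1 - c w wᴴ J) = J` because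
`- star c - c + c star c (u+u⁻¹) = 0`.  Then `PresentedGroup` induction.  The inverse of `1 - u w wᴴ J` is
`1 - u⁻¹ w wᴴ J`.
-/

namespace Pool.Agent.H99.KR
open Matrix

section
variable {F : Type*} [Field F] [StarRing F] (u : Fˣ)

/-- Squier's form. -/
def J (m : ℕ) : Matrix (Fin m) (Fin m) F := fun i j =>
  if i = j then (u : F) + ((u⁻¹ : Fˣ) : F) else if i.val + 1 = j.val ∨ j.val + 1 = i.val then -1 else 0

omit [StarRing F] in
lemma sum_fin_eq {m : ℕ} (k : ℕ) (f : Fin m → F) :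
    (∑ j : Fin m, if j.val = k then f j else 0) = if h : k < m then f ⟨k, h⟩ else 0 := by
  split_ifs with h
  · rw [Finset.sum_eq_single (⟨k, h⟩ : Fin m)]
    · simp
    · intro b _ hb
      rw [if_neg]
      intro hbk
      exact hb (Fin.ext hbk)
    · intro hb
      exact absurd (Finset.mem_univ _) hb
  · apply Finset.sum_eq_zero
    intro j _
    rw [if_neg]
    intro hj
    have := j.2
    omega

omit [StarRing F] in
lemma J_mulVec (m : ℕ) (x : Fin m → F) (i : Fin m) :
    (J u m *ᵥ x) i = ((u : F) + ((u⁻¹ : Fˣ) : F)) * x i -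
      (if h : 0 < i.val then x ⟨i.val - 1, by omega⟩ else 0) -
        (if h : i.val + 1 < m then x ⟨i.val + 1, h⟩ else 0) := by
  have h1 : ∀ j : Fin m, J u m i j * x j =
      (if j = i then ((u : F) + ((u⁻¹ : Fˣ) : F)) * x j else 0) -
      (if j.val = i.val - 1 then (if 0 < i.val then x j else 0) else 0) -
      (if j.val = i.val + 1 then x j else 0) := by
    intro j
    unfold J
    by_cases hij : i = j
    · subst hij
      by_cases h0 : 0 < i.val
      · have a1 : ¬ (i.val = i.val - 1) := by omega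
        have a2 : ¬ (i.val = i.val + 1) := by omega
        simp [a1]
      · simp [h0]
    · have hij' : i.val ≠ j.val := fun h => hij (Fin.ext h)
      have hji : ¬ (j = i) := fun h => hij h.symm
      by_cases hc : i.val + 1 = j.val
      · have a1 : ¬ (j.val = i.val - 1) := by omega
        have a2 : j.val = i.val + 1 := by omega
        rw [if_neg hij, if_pos (Or.inl hc), if_neg hji, if_neg a1, if_pos a2]
        ring
      · by_cases hd : j.val + 1 = i.val
        · have a1 : j.val = i.val - 1 := by omega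
          have a2 : ¬ (j.val = i.val + 1) := by omega
          have a3 : 0 < i.val := by omega
          have a4 : ¬ (i.val - 1 = i.val + 1) := by omega
          simp only [if_neg hij, if_neg hji, hd, or_true, if_true, if_pos a1, if_neg a2, if_pos a3]
          ring
        · have a1 : ¬ (j.val = i.val - 1 ∧ 0 < i.val) := by omega
          have a2 : ¬ (j.val = i.val + 1) := by omega
          have a3 : (if j.val = i.val - 1 then (if 0 < i.val then x j else 0) else 0) = (0 : F) := by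
            split_ifs with b1 b2
            · exact absurd ⟨b1, b2⟩ a1
            · rfl
            · rfl
          rw [a3, if_neg hij, if_neg hji, if_neg a2, if_neg (by omega)]
          ring
  unfold Matrix.mulVec dotProduct
  rw [Finset.sum_congr rfl (fun j _ => h1 j), Finset.sum_sub_distrib, Finset.sum_sub_distrib,
    Finset.sum_ite_eq' Finset.univ i, if_pos (Finset.mem_univ _), sum_fin_eq, sum_fin_eq]
  congr 2
  by_cases h0 : 0 < i.val
  · rw [dif_pos h0, dif_pos (show i.val - 1 < m by omega), if_pos h0]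
  · rw [dif_neg h0]
    split_ifs <;> rfl

omit [StarRing F] in
lemma J_symm (m : ℕ) (i j : Fin m) : J u m i j = J u m j i := by
  unfold J
  by_cases h : i = j
  · subst h; rfl
  · rw [if_neg h, if_neg (fun h' : j = i => h h'.symm)]
    by_cases h1 : i.val + 1 = j.val ∨ j.val + 1 = i.val
    · rw [if_pos h1, if_pos h1.symm]
    · rw [if_neg h1, if_neg (fun h2 => h1 h2.symm)]

lemma star_inv_unit (hu : star (u : F) = ((u⁻¹ : Fˣ) : F)) :
    star ((u⁻¹ : Fˣ) : F) = (u : F) := by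
  rw [← hu, star_star]

lemma J_herm (hu : star (u : F) = ((u⁻¹ : Fˣ) : F)) (m : ℕ) : (J u m)ᴴ = J u m := by
  ext i j
  rw [Matrix.conjTranspose_apply, ← J_symm u m i j]
  unfold J
  split_ifs
  · rw [star_add, hu, star_inv_unit u hu, add_comm]
  · simp
  · simp

/-- The matrix of a generator is a reflection. -/
lemma Mat_s_eq {m : ℕ} (i : Fin m) :
    Mat u (s i) = 1 - (u : F) • Matrix.vecMulVec (Pi.single i 1) (star (Pi.single i 1) ᵥ* J u m) := by
  apply Matrix.mulVec_injective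
  funext x
  funext j
  rw [Mat_s, Matrix.sub_mulVec, Matrix.one_mulVec, Matrix.smul_mulVec, Matrix.vecMulVec_mulVec]
  have h1 : (star (Pi.single i 1 : Fin m → F)) ᵥ* J u m ⬝ᵥ x = (J u m *ᵥ x) i := by
    have h2 : star (Pi.single i 1 : Fin m → F) = Pi.single i 1 := by
      funext k
      by_cases hk : k = i
      · subst hk; simp
      · simp [Pi.single_eq_of_ne hk]
    rw [h2, Matrix.single_one_vecMul]
    rfl
  rw [h1, J_mulVec]
  simp only [Pi.sub_apply, Pi.smul_apply, MulOpposite.smul_eq_mul_unop, MulOpposite.unop_op, smul_eq_mul]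
  have hu1 : (u : F) * ((u⁻¹ : Fˣ) : F) = 1 := Units.mul_inv u
  by_cases hj : j = i
  · subst hj
    rw [if_pos rfl, Pi.single_eq_same]
    linear_combination (x j) * hu1
  · rw [if_neg hj, Pi.single_eq_of_ne hj]
    ring

/-- `star w ᵥ* J` against `w`. -/
def formQ (m : ℕ) (w : Fin m → F) : F := (star w ᵥ* J u m) ⬝ᵥ w

lemma refl_unitary (hu : star (u : F) = ((u⁻¹ : Fˣ) : F)) {m : ℕ} (w : Fin m → F)
    (hw : formQ u m w = (u : F) + ((u⁻¹ : Fˣ) : F)) (c : F) (hc : c = u ∨ c = ((u⁻¹ : Fˣ) : F)) :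
    (1 - c • (Matrix.vecMulVec w (star w ᵥ* J u m)))ᴴ * J u m *
      (1 - c • (Matrix.vecMulVec w (star w ᵥ* J u m))) = J u m := by
  have hJ := J_herm u hu m
  have h1 : (Matrix.vecMulVec w (star w ᵥ* J u m))ᴴ = Matrix.vecMulVec (J u m *ᵥ w) (star w) := by
    rw [Matrix.conjTranspose_vecMulVec, Matrix.star_vecMul, star_star, hJ]
  have h2 : Matrix.vecMulVec (J u m *ᵥ w) (star w) * J u m =
      Matrix.vecMulVec (J u m *ᵥ w) (star w ᵥ* J u m) := by
    rw [Matrix.vecMulVec_mul]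
  have h3 : J u m * Matrix.vecMulVec w (star w ᵥ* J u m) =
      Matrix.vecMulVec (J u m *ᵥ w) (star w ᵥ* J u m) := by
    rw [Matrix.mul_vecMulVec]
  have h4 : Matrix.vecMulVec (J u m *ᵥ w) (star w ᵥ* J u m) * Matrix.vecMulVec w (star w ᵥ* J u m) =
      ((u : F) + ((u⁻¹ : Fˣ) : F)) • Matrix.vecMulVec (J u m *ᵥ w) (star w ᵥ* J u m) := by
    rw [Matrix.vecMulVec_mul_vecMulVec, ← hw, formQ]
    ext i j
    simp only [Matrix.vecMulVec_apply, Matrix.smul_apply, Pi.smul_apply, smul_eq_mul]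
    ring
  have hcc : star c * c = 1 := by
    rcases hc with rfl | rfl
    · rw [hu]; exact Units.inv_mul u
    · rw [star_inv_unit u hu]; exact Units.mul_inv u
  have hcs : star c + c = (u : F) + ((u⁻¹ : Fˣ) : F) := by
    rcases hc with rfl | rfl
    · rw [hu, add_comm]
    · rw [star_inv_unit u hu]
  rw [Matrix.conjTranspose_sub, Matrix.conjTranspose_one, Matrix.conjTranspose_smul, h1,
    Matrix.sub_mul, Matrix.one_mul, Matrix.smul_mul, h2, Matrix.sub_mul, Matrix.mul_sub, Matrix.mul_sub,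
    Matrix.mul_one, Matrix.mul_one, Matrix.mul_smul, Matrix.smul_mul, h3, Matrix.mul_smul, h4]
  have h5 : star c * c * ((u : F) + ((u⁻¹ : Fˣ) : F)) - c - star c = 0 := by
    rw [hcc, ← hcs]; ring
  set E := Matrix.vecMulVec (J u m *ᵥ w) (star w ᵥ* J u m) with hE
  have h6 : J u m - c • E - (star c • E - star c • c • ((u : F) + ((u⁻¹ : Fˣ) : F)) • E) =
      J u m + (star c * c * ((u : F) + ((u⁻¹ : Fˣ) : F)) - c - star c) • E := by
    module
  rw [h6, h5, zero_smul, add_zero]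

lemma formQ_single {m : ℕ} (i : Fin m) : formQ u m (Pi.single i 1) = (u : F) + ((u⁻¹ : Fˣ) : F) := by
  have h2 : star (Pi.single i 1 : Fin m → F) = Pi.single i 1 := by
    funext k
    by_cases hk : k = i
    · subst hk; simp
    · simp [Pi.single_eq_of_ne hk]
  rw [formQ, h2, Matrix.single_one_vecMul]
  simp [J]

lemma unitary_inv (hu : star (u : F) = ((u⁻¹ : Fˣ) : F)) {m : ℕ} (g : Br m)
    (h : (Mat u g)ᴴ * J u m * Mat u g = J u m) :
    (Mat u g⁻¹)ᴴ * J u m * Mat u g⁻¹ = J u m := by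
  have h1 : Mat u g * Mat u g⁻¹ = 1 := by rw [← Mat_mul, mul_inv_cancel, Mat_one]
  have h2 : (Mat u g⁻¹)ᴴ * (Mat u g)ᴴ = 1 := by
    rw [← Matrix.conjTranspose_mul, h1, Matrix.conjTranspose_one]
  calc (Mat u g⁻¹)ᴴ * J u m * Mat u g⁻¹
      = (Mat u g⁻¹)ᴴ * ((Mat u g)ᴴ * J u m * Mat u g) * Mat u g⁻¹ := by rw [h]
    _ = ((Mat u g⁻¹)ᴴ * (Mat u g)ᴴ) * J u m * (Mat u g * Mat u g⁻¹) := by
        simp only [Matrix.mul_assoc]
    _ = J u m := by rw [h1, h2, Matrix.one_mul, Matrix.mul_one]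

lemma unitary (hu : star (u : F) = ((u⁻¹ : Fˣ) : F)) {m : ℕ} (g : Br m) :
    (Mat u g)ᴴ * J u m * Mat u g = J u m := by
  have key : ∀ w : FreeGroup (Fin m), (Mat u (PresentedGroup.mk (rels m) w))ᴴ * J u m *
      Mat u (PresentedGroup.mk (rels m) w) = J u m := by
    intro w
    induction w using FreeGroup.induction_on with
    | C1 =>
      rw [map_one, Mat_one, Matrix.conjTranspose_one, Matrix.one_mul, Matrix.mul_one]
    | of i =>
      have : PresentedGroup.mk (rels m) (FreeGroup.of i) = s i := rfl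
      rw [this, Mat_s_eq]
      exact refl_unitary u hu _ (formQ_single u i) _ (Or.inl rfl)
    | inv_of i h =>
      rw [map_inv]
      exact unitary_inv u hu _ h
    | mul x y hx hy =>
      rw [map_mul, Mat_mul, Matrix.conjTranspose_mul]
      calc (Mat u (PresentedGroup.mk (rels m) y))ᴴ * (Mat u (PresentedGroup.mk (rels m) x))ᴴ * J u m *
            (Mat u (PresentedGroup.mk (rels m) x) * Mat u (PresentedGroup.mk (rels m) y))
          = (Mat u (PresentedGroup.mk (rels m) y))ᴴ * ((Mat u (PresentedGroup.mk (rels m) x))ᴴ * J u m *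
            Mat u (PresentedGroup.mk (rels m) x)) * Mat u (PresentedGroup.mk (rels m) y) := by
            simp only [Matrix.mul_assoc]
        _ = J u m := by rw [hx, hy]
  obtain ⟨w, rfl⟩ := PresentedGroup.mk_surjective (rels m) g
  exact key w

/-- The inverse of a generator is a reflection. -/
lemma Mat_s_inv_eq {m : ℕ} (i : Fin m) :
    Mat u (s i)⁻¹ = 1 - ((u⁻¹ : Fˣ) : F) •
      Matrix.vecMulVec (Pi.single i 1) (star (Pi.single i 1) ᵥ* J u m) := by
  have h1 : Mat u (s i)⁻¹ * Mat u (s i) = 1 := by rw [← Mat_mul, inv_mul_cancel, Mat_one]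
  set E := Matrix.vecMulVec (Pi.single i (1 : F)) (star (Pi.single i (1 : F)) ᵥ* J u m) with hE
  have hEE : E * E = ((u : F) + ((u⁻¹ : Fˣ) : F)) • E := by
    rw [hE, Matrix.vecMulVec_mul_vecMulVec, ← formQ_single u i, formQ]
    ext a b
    simp only [Matrix.vecMulVec_apply, Matrix.smul_apply, Pi.smul_apply, smul_eq_mul]
    ring
  have h2 : Mat u (s i) * (1 - ((u⁻¹ : Fˣ) : F) • E) = 1 := by
    rw [Mat_s_eq, ← hE, Matrix.sub_mul, Matrix.one_mul, Matrix.smul_mul, Matrix.mul_sub, Matrix.mul_one,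
      Matrix.mul_smul, hEE, smul_sub]
    have hu1 : (u : F) * ((u⁻¹ : Fˣ) : F) = 1 := Units.mul_inv u
    have h6 : (1 : Matrix (Fin m) (Fin m) F) - ((u⁻¹ : Fˣ) : F) • E -
        ((u : F) • E - (u : F) • ((u⁻¹ : Fˣ) : F) • ((u : F) + ((u⁻¹ : Fˣ) : F)) • E) =
        1 + ((u : F) * ((u⁻¹ : Fˣ) : F) - 1) • ((u : F) + ((u⁻¹ : Fˣ) : F)) • E := by
      module
    rw [h6, hu1, sub_self, zero_smul, add_zero]
  calc Mat u (s i)⁻¹ = Mat u (s i)⁻¹ * (Mat u (s i) * (1 - ((u⁻¹ : Fˣ) : F) • E)) := by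
        rw [h2, Matrix.mul_one]
    _ = 1 - ((u⁻¹ : Fˣ) : F) • E := by rw [← Matrix.mul_assoc, h1, Matrix.one_mul]

/-- Bands are reflections: `1 - c w wᴴ J` with `c = u` or `c = u⁻¹`. -/
lemma band (hu : star (u : F) = ((u⁻¹ : Fˣ) : F)) {m : ℕ} (b : Br m) (hb : IsBand b) :
    ∃ (w : Fin m → F) (c : F), (c = u ∨ c = ((u⁻¹ : Fˣ) : F)) ∧
      Mat u b = 1 - c • (Matrix.vecMulVec w (star w ᵥ* J u m)) := by
  obtain ⟨g, i, hb⟩ := hb
  have key : ∀ c : F, Mat u g * (1 - c • Matrix.vecMulVec (Pi.single i (1 : F))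
      (star (Pi.single i (1 : F)) ᵥ* J u m)) * Mat u g⁻¹ =
      1 - c • (Matrix.vecMulVec (Mat u g *ᵥ Pi.single i 1) (star (Mat u g *ᵥ Pi.single i 1) ᵥ* J u m)) := by
    intro c
    have h1 : Mat u g * Mat u g⁻¹ = 1 := by rw [← Mat_mul, mul_inv_cancel, Mat_one]
    have h3 : J u m * Mat u g⁻¹ = (Mat u g)ᴴ * J u m := by
      calc J u m * Mat u g⁻¹ = ((Mat u g)ᴴ * J u m * Mat u g) * Mat u g⁻¹ := by rw [unitary u hu g]
        _ = (Mat u g)ᴴ * J u m := by rw [Matrix.mul_assoc _ (Mat u g), h1, Matrix.mul_one]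
    rw [Matrix.mul_sub, Matrix.mul_one, Matrix.sub_mul, h1, Matrix.mul_smul, Matrix.smul_mul,
      Matrix.mul_vecMulVec, Matrix.vecMulVec_mul, Matrix.vecMul_vecMul, h3, ← Matrix.vecMul_vecMul,
      Matrix.star_mulVec]
  rcases hb with hb | hb
  · refine ⟨Mat u g *ᵥ Pi.single i 1, u, Or.inl rfl, ?_⟩
    rw [hb, Mat_mul, Mat_mul, Mat_s_eq, key]
  · refine ⟨Mat u g *ᵥ Pi.single i 1, ((u⁻¹ : Fˣ) : F), Or.inr rfl, ?_⟩
    rw [hb, Mat_mul, Mat_mul, Mat_s_inv_eq, key]

end

end Pool.Agent.H99.KR
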