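import Pool.Agent.H99.KR.Delta
import Pool.Agent.H99.KR.Herm
import Pool.Agent.H99.KR.Alg

/-!
# A birth adds one dimension of nullity, with Gram factor `-2 u^{-(m+2)} (u^{m+3}-1)(u^{m+1}-1)`

`x : Br m`, `y = (birthP ⟨m, x⟩).2 = sh x * (Δ (m+2))⁻¹ * sh (Δ m) : Br (m+2)`, `n' = m + 3`.
* on the middle coordinates: `u^(m+3) Mat y (mid v) = mid (u^(m+1) Mat x v)`.  (`sh` acts on the middle like `Mat`:
  use `rho_inc` with `rho_sh`; `Δ (m+2)⁻¹` is `-u^{-(m+3)} flip`, `Δ m` is `-u^(m+1) flip` on the middle.)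
* `eps j = u^(m+2-j) - u^(j+1)` is orthogonal to the middle, so it is fixed by `sh (Δ m)` and `sh x`
  (prove: `T u i` fixes a sequence with `(u+u⁻¹) z_i = z_{i-1} + z_{i+1}`; the sequence `eps` satisfies this recurrence
  in the middle), and `flip eps = - eps`; hence `u^(m+3) Mat y eps = eps`.
* `eps' j = u^(m+2-j) + u^(j+1)`, the same, `flip eps' = eps'`, so `u^(m+3) Mat y eps' = - eps'`.
* Gram: `epsᴴ J eps = -2 u^{-(m+2)} (u^(m+3)-1)(u^(m+1)-1)`, `epsᴴ J eps' = 0`, both are orthogonal to the middle.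
Basis: middle, eps, eps' is a basis iff `2 (u^(m+2) - u) (u^(m+2) + u) ≠ 0` (first and last coordinates).
-/

namespace Pool.Agent.H99.KR
open Matrix

section
variable {F : Type*} [Field F] [StarRing F] (u : Fˣ)

/-- Middle embedding. -/
def mid {m : ℕ} (v : Fin m → F) (j : Fin (m + 2)) : F :=
  if h : 1 ≤ j.val ∧ j.val ≤ m then v ⟨j.val - 1, by omega⟩ else 0

def eps (m : ℕ) (j : Fin (m + 2)) : F := (u : F) ^ (m + 2 - j.val) - (u : F) ^ (j.val + 1)
def eps' (m : ℕ) (j : Fin (m + 2)) : F := (u : F) ^ (m + 2 - j.val) + (u : F) ^ (j.val + 1)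

section aux
variable {R : Type*} [Field R] (t : Rˣ)

private lemma inc_mid {m : ℕ} (v : Fin m → R) : inc 0 (mid v) = inc 1 v := by
  funext j
  unfold inc mid
  by_cases h : (1 : ℤ) ≤ j ∧ j < 1 + m
  · rw [dif_pos h, dif_pos (by push_cast; omega), dif_pos (by dsimp only; omega)]
    congr 1
    apply Fin.ext
    dsimp only
    omega
  · rw [dif_neg h]
    split_ifs with h1 h2
    · exfalso
      dsimp only at h2
      omega
    · rfl
    · rfl

private lemma sh_mid {m : ℕ} (g : Br m) (v : Fin m → R) :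
    Mat t (sh g) *ᵥ (mid v : Fin (m + 2) → R) = mid (Mat t g *ᵥ v) := by
  apply inc_injective 0
  rw [← rho_inc, inc_mid, inc_mid, rho_sh, zero_add, rho_inc]

private lemma sh_fix {m : ℕ} (z : Fin (m + 2) → R)
    (hz : ∀ (i : ℕ) (h : i < m), ((t : R) + ((t⁻¹ : Rˣ) : R)) * z ⟨i + 1, by omega⟩ =
      z ⟨i, by omega⟩ + z ⟨i + 2, by omega⟩) (g : Br m) :
    Mat t (sh g) *ᵥ z = z := by
  have hu1 : (t : R) * ((t⁻¹ : Rˣ) : R) = 1 := Units.mul_inv t
  have hval : ∀ k : Fin (m + 2), inc 0 z ((k.val : ℕ) : ℤ) = z k := fun k => inc_zero_nat z k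
  -- the stabiliser
  let S : Subgroup (Br m) :=
    { carrier := {g | rho t 1 g (inc 0 z) = inc 0 z}
      mul_mem' := by
        intro a b ha hb
        change rho t 1 (a * b) (inc 0 z) = inc 0 z
        rw [map_mul]
        change rho t 1 a (rho t 1 b (inc 0 z)) = inc 0 z
        rw [show rho t 1 b (inc 0 z) = inc 0 z from hb]
        exact ha
      one_mem' := by
        change rho t 1 1 (inc 0 z) = inc 0 z
        rw [map_one]
        rfl
      inv_mem' := by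
        intro a ha
        change rho t 1 a⁻¹ (inc 0 z) = inc 0 z
        have h1 : rho t 1 a (inc 0 z) = inc 0 z := ha
        conv_lhs => rw [← h1]
        change ((rho t 1 a⁻¹) * (rho t 1 a)) (inc 0 z) = inc 0 z
        rw [← map_mul, inv_mul_cancel, map_one]
        rfl }
  have hS : S = ⊤ := by
    rw [eq_top_iff, ← PresentedGroup.closure_range_of, Subgroup.closure_le]
    rintro _ ⟨i, rfl⟩
    change rho t 1 (s i) (inc 0 z) = inc 0 z
    rw [rho_s]
    funext j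
    rw [T_apply]
    split_ifs with hj
    · have h1 := hz i.val i.2
      have e0 : (1 : ℤ) + i.val - 1 = (((⟨i.val, by omega⟩ : Fin (m + 2)).val : ℕ) : ℤ) := by
        dsimp only; ring
      have e1 : (1 : ℤ) + i.val = (((⟨i.val + 1, by omega⟩ : Fin (m + 2)).val : ℕ) : ℤ) := by
        dsimp only; push_cast; ring
      have e2 : (1 : ℤ) + i.val + 1 = (((⟨i.val + 2, by omega⟩ : Fin (m + 2)).val : ℕ) : ℤ) := by
        dsimp only; push_cast; ring
      rw [hj, e2, e0, e1, hval, hval, hval]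
      linear_combination (-(t : R)) * h1 + (z ⟨i.val + 1, by omega⟩) * hu1
    · rfl
  have hg : rho t 1 g (inc 0 z) = inc 0 z := by
    have : g ∈ S := by rw [hS]; trivial
    exact this
  apply inc_injective 0
  rw [← rho_inc, rho_sh, zero_add]
  exact hg

private lemma eps_rec {m : ℕ} (i : ℕ) (h : i < m) :
    ((t : R) + ((t⁻¹ : Rˣ) : R)) * eps t m ⟨i + 1, by omega⟩ =
      eps t m ⟨i, by omega⟩ + eps t m ⟨i + 2, by omega⟩ := by
  have hu1 : (t : R) * ((t⁻¹ : Rˣ) : R) = 1 := Units.mul_inv t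
  obtain ⟨d, rfl⟩ : ∃ d, m = i + 1 + d := ⟨m - i - 1, by omega⟩
  unfold eps
  dsimp only
  rw [show i + 1 + d + 2 - (i + 1) = d + 2 by omega, show i + 1 + d + 2 - i = d + 3 by omega,
    show i + 1 + d + 2 - (i + 2) = d + 1 by omega]
  linear_combination ((t : R) ^ (d + 1) - (t : R) ^ (i + 1)) * hu1

private lemma eps'_rec {m : ℕ} (i : ℕ) (h : i < m) :
    ((t : R) + ((t⁻¹ : Rˣ) : R)) * eps' t m ⟨i + 1, by omega⟩ =
      eps' t m ⟨i, by omega⟩ + eps' t m ⟨i + 2, by omega⟩ := by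
  have hu1 : (t : R) * ((t⁻¹ : Rˣ) : R) = 1 := Units.mul_inv t
  obtain ⟨d, rfl⟩ : ∃ d, m = i + 1 + d := ⟨m - i - 1, by omega⟩
  unfold eps'
  dsimp only
  rw [show i + 1 + d + 2 - (i + 1) = d + 2 by omega, show i + 1 + d + 2 - i = d + 3 by omega,
    show i + 1 + d + 2 - (i + 2) = d + 1 by omega]
  linear_combination ((t : R) ^ (d + 1) + (t : R) ^ (i + 1)) * hu1

private lemma eps_rev {m : ℕ} (i : Fin (m + 2)) : eps t m (Fin.rev i) = - eps t m i := by
  unfold eps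
  rw [Fin.val_rev]
  have := i.2
  rw [show m + 2 - (m + 2 - (i.val + 1)) = i.val + 1 by omega,
    show m + 2 - (i.val + 1) + 1 = m + 2 - i.val by omega]
  ring

private lemma eps'_rev {m : ℕ} (i : Fin (m + 2)) : eps' t m (Fin.rev i) = eps' t m i := by
  unfold eps'
  rw [Fin.val_rev]
  have := i.2
  rw [show m + 2 - (m + 2 - (i.val + 1)) = i.val + 1 by omega,
    show m + 2 - (i.val + 1) + 1 = m + 2 - i.val by omega]
  ring

private lemma mid_rev {m : ℕ} (w : Fin m → R) (i : Fin (m + 2)) :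
    mid w (Fin.rev i) = mid (fun k => w (Fin.rev k)) i := by
  have hi := i.2
  unfold mid
  by_cases h : 1 ≤ i.val ∧ i.val ≤ m
  · rw [dif_pos h, dif_pos (by rw [Fin.val_rev]; omega)]
    congr 1
    apply Fin.ext
    simp only [Fin.val_rev]
    omega
  · rw [dif_neg h, dif_neg (by rw [Fin.val_rev]; omega)]

private lemma mid_smul {m : ℕ} (c : R) (w : Fin m → R) (i : Fin (m + 2)) :
    mid (fun k => c * w k) i = c * mid w i := by
  unfold mid
  split_ifs
  · rfl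
  · rw [mul_zero]

private lemma Mat_birth {m : ℕ} (x : Br m) (v : Fin (m + 2) → R) :
    Mat t (birthP ⟨m, x⟩).2 *ᵥ v =
      Mat t (sh x) *ᵥ (Mat t ((Δ (m + 2))⁻¹) *ᵥ (Mat t (sh (Δ m)) *ᵥ v)) := by
  change Mat t (sh x * (Δ (m + 2))⁻¹ * sh (Δ m)) *ᵥ v = _
  rw [Mat_mul, Mat_mul, Matrix.mulVec_mulVec, Matrix.mulVec_mulVec, Matrix.mul_assoc]

private lemma upow (m : ℕ) : (t : R) ^ m * ((t⁻¹ : Rˣ) : R) ^ m = 1 := by
  rw [← mul_pow, Units.mul_inv, one_pow]

end aux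

lemma birth_mid {m : ℕ} (x : Br m) (v : Fin m → F) :
    ((u : F) ^ (m + 3)) • (Mat u (birthP ⟨m, x⟩).2 *ᵥ (mid v : Fin (m + 2) → F)) =
      mid (((u : F) ^ (m + 1)) • (Mat u x *ᵥ v)) := by
  have h1 : Mat u ((Δ (m + 2))⁻¹) *ᵥ (Mat u (sh (Δ m)) *ᵥ (mid v : Fin (m + 2) → F)) =
      (((u⁻¹ : Fˣ) : F) ^ (m + 3) * (u : F) ^ (m + 1)) • (mid v : Fin (m + 2) → F) := by
    rw [sh_mid, Mat_Δ, Mat_Δ_inv]
    funext i
    rw [mid_rev]
    have e : (fun k : Fin m => -(u : F) ^ (m + 1) * v (Fin.rev (Fin.rev k)))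
        = fun k => (-(u : F) ^ (m + 1)) * v k := by
      funext k
      rw [Fin.rev_rev]
    rw [e, mid_smul, Pi.smul_apply, smul_eq_mul]
    ring
  have key : Mat u (birthP ⟨m, x⟩).2 *ᵥ (mid v : Fin (m + 2) → F) =
      (((u⁻¹ : Fˣ) : F) ^ (m + 3) * (u : F) ^ (m + 1)) • (mid (Mat u x *ᵥ v) : Fin (m + 2) → F) := by
    rw [Mat_birth, h1, Matrix.mulVec_smul, sh_mid]
  have hp := upow u (m + 3)
  refine funext fun (i : Fin (m + 2)) => ?_
  refine (congrArg (fun t => (u : F) ^ (m + 3) * t) (congrFun key i)).trans ?_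
  change (u : F) ^ (m + 3) * ((((u⁻¹ : Fˣ) : F) ^ (m + 3) * (u : F) ^ (m + 1)) *
    (mid (Mat u x *ᵥ v) : Fin (m + 2) → F) i) =
      mid (fun k => (u : F) ^ (m + 1) * (Mat u x *ᵥ v) k) i
  rw [mid_smul]
  linear_combination ((u : F) ^ (m + 1) * (mid (Mat u x *ᵥ v) : Fin (m + 2) → F) i) * hp

lemma birth_eps {m : ℕ} (x : Br m) :
    ((u : F) ^ (m + 3)) • (Mat u (birthP ⟨m, x⟩).2 *ᵥ (eps u m : Fin (m + 2) → F)) = eps u m := by
  have h1 : Mat u ((Δ (m + 2))⁻¹) *ᵥ (eps u m : Fin (m + 2) → F) =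
      (((u⁻¹ : Fˣ) : F) ^ (m + 3)) • (eps u m : Fin (m + 2) → F) := by
    rw [Mat_Δ_inv]
    funext i
    rw [eps_rev, Pi.smul_apply, smul_eq_mul]
    ring
  have key : Mat u (birthP ⟨m, x⟩).2 *ᵥ (eps u m : Fin (m + 2) → F) =
      (((u⁻¹ : Fˣ) : F) ^ (m + 3)) • (eps u m : Fin (m + 2) → F) := by
    rw [Mat_birth, sh_fix u _ (fun i h => eps_rec u i h), h1, Matrix.mulVec_smul,
      sh_fix u _ (fun i h => eps_rec u i h)]
  have hp := upow u (m + 3)
  refine funext fun (i : Fin (m + 2)) => ?_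
  refine (congrArg (fun t => (u : F) ^ (m + 3) * t) (congrFun key i)).trans ?_
  change (u : F) ^ (m + 3) * (((u⁻¹ : Fˣ) : F) ^ (m + 3) * eps u m i) = eps u m i
  linear_combination (eps u m i) * hp

lemma birth_eps' {m : ℕ} (x : Br m) :
    ((u : F) ^ (m + 3)) • (Mat u (birthP ⟨m, x⟩).2 *ᵥ (eps' u m : Fin (m + 2) → F)) = - eps' u m := by
  have h1 : Mat u ((Δ (m + 2))⁻¹) *ᵥ (eps' u m : Fin (m + 2) → F) =
      (-((u⁻¹ : Fˣ) : F) ^ (m + 3)) • (eps' u m : Fin (m + 2) → F) := by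
    rw [Mat_Δ_inv]
    funext i
    rw [eps'_rev, Pi.smul_apply, smul_eq_mul]
  have key : Mat u (birthP ⟨m, x⟩).2 *ᵥ (eps' u m : Fin (m + 2) → F) =
      (-((u⁻¹ : Fˣ) : F) ^ (m + 3)) • (eps' u m : Fin (m + 2) → F) := by
    rw [Mat_birth, sh_fix u _ (fun i h => eps'_rec u i h), h1, Matrix.mulVec_smul,
      sh_fix u _ (fun i h => eps'_rec u i h)]
  have hp := upow u (m + 3)
  refine funext fun (i : Fin (m + 2)) => ?_
  refine (congrArg (fun t => (u : F) ^ (m + 3) * t) (congrFun key i)).trans ?_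
  change (u : F) ^ (m + 3) * (-((u⁻¹ : Fˣ) : F) ^ (m + 3) * eps' u m i) = -eps' u m i
  linear_combination (-(eps' u m i)) * hp

omit [StarRing F] in
private lemma sum_mid {m : ℕ} (f : Fin (m + 2) → F) :
    ∑ j, f j = f ⟨0, by omega⟩ + (∑ i : Fin m, f ⟨i.val + 1, by omega⟩) + f ⟨m + 1, by omega⟩ := by
  rw [Fin.sum_univ_succ, Fin.sum_univ_castSucc, ← add_assoc]
  rfl

omit [StarRing F] in
private lemma mid_zero {m : ℕ} (v : Fin m → F) (h : 0 < m + 2) : mid v ⟨0, h⟩ = 0 := by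
  unfold mid
  rw [dif_neg (by dsimp only; omega)]

omit [StarRing F] in
private lemma mid_last {m : ℕ} (v : Fin m → F) (h : m + 1 < m + 2) : mid v ⟨m + 1, h⟩ = 0 := by
  unfold mid
  rw [dif_neg (by dsimp only; omega)]

omit [StarRing F] in
private lemma mid_mid {m : ℕ} (v : Fin m → F) (i : Fin m) (h : i.val + 1 < m + 2) :
    mid v ⟨i.val + 1, h⟩ = v i := by
  unfold mid
  rw [dif_pos (by dsimp only; have := i.2; omega)]
  congr 1

omit [StarRing F] in
private lemma J_mid_rec {m : ℕ} (z : Fin (m + 2) → F) (i : Fin m) :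
    (J u (m + 2) *ᵥ z) ⟨i.val + 1, by omega⟩ =
      ((u : F) + ((u⁻¹ : Fˣ) : F)) * z ⟨i.val + 1, by omega⟩ - z ⟨i.val, by omega⟩
        - z ⟨i.val + 2, by omega⟩ := by
  have hi := i.2
  rw [J_mulVec, dif_pos (by dsimp only; omega), dif_pos (by dsimp only; omega)]
  rfl

private lemma dot_mid {m : ℕ} (v : Fin m → F) (z : Fin (m + 2) → F) :
    star (mid v) ⬝ᵥ z = ∑ i : Fin m, star (v i) * z ⟨i.val + 1, by omega⟩ := by
  unfold dotProduct
  rw [sum_mid]
  simp only [Pi.star_apply, mid_zero, mid_last, mid_mid, star_zero, zero_mul, zero_add, add_zero]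

lemma gram_mid {m : ℕ} (v w : Fin m → F) :
    star (mid v) ⬝ᵥ (J u (m + 2) *ᵥ mid w) = star v ⬝ᵥ (J u m *ᵥ w) := by
  rw [dot_mid]
  unfold dotProduct
  refine Finset.sum_congr rfl fun i _ => ?_
  have hi := i.2
  rw [J_mid_rec, J_mulVec, mid_mid]
  rw [Pi.star_apply]
  congr 2
  · congr 1
    unfold mid
    by_cases h : 0 < i.val
    · rw [dif_pos h, dif_pos (by dsimp only; omega)]
    · rw [dif_neg h, dif_neg (by dsimp only; omega)]
  · unfold mid
    by_cases h : i.val + 1 < m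
    · rw [dif_pos h, dif_pos (by dsimp only; omega)]
      congr 1
    · rw [dif_neg h, dif_neg (by dsimp only; omega)]

lemma gram_mid_eps {m : ℕ} (v : Fin m → F) : star (mid v) ⬝ᵥ (J u (m + 2) *ᵥ eps u m) = 0 := by
  rw [dot_mid]
  refine Finset.sum_eq_zero fun i _ => ?_
  rw [J_mid_rec, eps_rec u i.val i.2]
  ring

lemma gram_mid_eps' {m : ℕ} (v : Fin m → F) : star (mid v) ⬝ᵥ (J u (m + 2) *ᵥ eps' u m) = 0 := by
  rw [dot_mid]
  refine Finset.sum_eq_zero fun i _ => ?_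
  rw [J_mid_rec, eps'_rec u i.val i.2]
  ring

private lemma eps_zero_last (hu : star (u : F) = ((u⁻¹ : Fˣ) : F)) (m : ℕ) :
    star (eps u m ⟨0, by omega⟩) = ((u⁻¹ : Fˣ) : F) ^ (m + 2) - ((u⁻¹ : Fˣ) : F) ∧
      star (eps u m ⟨m + 1, by omega⟩) = ((u⁻¹ : Fˣ) : F) - ((u⁻¹ : Fˣ) : F) ^ (m + 2) := by
  constructor
  · unfold eps
    dsimp only
    rw [star_sub, star_pow, star_pow, hu, Nat.sub_zero, zero_add, pow_one]
  · unfold eps
    dsimp only
    rw [star_sub, star_pow, star_pow, hu, show m + 2 - (m + 1) = 1 by omega, pow_one]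

omit [StarRing F] in
private lemma J_ends (m : ℕ) (z : Fin (m + 2) → F) :
    (J u (m + 2) *ᵥ z) ⟨0, by omega⟩ =
      ((u : F) + ((u⁻¹ : Fˣ) : F)) * z ⟨0, by omega⟩ - z ⟨1, by omega⟩ ∧
    (J u (m + 2) *ᵥ z) ⟨m + 1, by omega⟩ =
      ((u : F) + ((u⁻¹ : Fˣ) : F)) * z ⟨m + 1, by omega⟩ - z ⟨m, by omega⟩ := by
  constructor
  · rw [J_mulVec, dif_neg (by dsimp only; omega), dif_pos (by dsimp only; omega), sub_zero]
  · rw [J_mulVec, dif_pos (by dsimp only; omega), dif_neg (by dsimp only; omega), sub_zero]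
    rfl

lemma gram_eps (hu : star (u : F) = ((u⁻¹ : Fˣ) : F)) (m : ℕ) :
    star (eps u m) ⬝ᵥ (J u (m + 2) *ᵥ eps u m) =
      -2 * ((u⁻¹ : Fˣ) : F) ^ (m + 2) * ((u : F) ^ (m + 3) - 1) * ((u : F) ^ (m + 1) - 1) := by
  have hu1 : (u : F) * ((u⁻¹ : Fˣ) : F) = 1 := Units.mul_inv u
  have hum := upow u (m + 1)
  unfold dotProduct
  rw [sum_mid]
  have hmid : ∑ i : Fin m, star (eps u m) ⟨i.val + 1, by omega⟩ *
      (J u (m + 2) *ᵥ eps u m) ⟨i.val + 1, by omega⟩ = 0 := by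
    refine Finset.sum_eq_zero fun i _ => ?_
    rw [J_mid_rec, eps_rec u i.val i.2]
    ring
  rw [hmid, (J_ends u m _).1, (J_ends u m _).2, Pi.star_apply, Pi.star_apply,
    (eps_zero_last u hu m).1, (eps_zero_last u hu m).2]
  unfold eps
  dsimp only
  rw [show m + 2 - 0 = m + 2 by omega, show m + 2 - (m + 1) = 1 by omega,
    show m + 2 - m = 2 by omega, show m + 2 - 1 = m + 1 by omega]
  set w := ((u⁻¹ : Fˣ) : F) with hw
  set U := (u : F) with hU
  have h2 : w ^ (m + 2) * U ^ (m + 1) = w := by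
    rw [pow_succ w (m + 1)]
    linear_combination w * hum
  have key0 : (U + w) * (U ^ (m + 2) - U ^ (0 + 1)) - (U ^ (m + 1) - U ^ (1 + 1))
      = U ^ (m + 3) - 1 := by
    linear_combination (U ^ (m + 1) - 1) * hu1
  have key1 : (U + w) * (U ^ 1 - U ^ (m + 1 + 1)) - (U ^ 2 - U ^ (m + 1))
      = 1 - U ^ (m + 3) := by
    linear_combination (1 - U ^ (m + 1)) * hu1
  rw [key0, key1]
  linear_combination (2 * (U ^ (m + 3) - 1)) * h2

lemma gram_eps_eps' (hu : star (u : F) = ((u⁻¹ : Fˣ) : F)) (m : ℕ) :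
    star (eps u m) ⬝ᵥ (J u (m + 2) *ᵥ eps' u m) = 0 := by
  have hu1 : (u : F) * ((u⁻¹ : Fˣ) : F) = 1 := Units.mul_inv u
  unfold dotProduct
  rw [sum_mid]
  have hmid : ∑ i : Fin m, star (eps u m) ⟨i.val + 1, by omega⟩ *
      (J u (m + 2) *ᵥ eps' u m) ⟨i.val + 1, by omega⟩ = 0 := by
    refine Finset.sum_eq_zero fun i _ => ?_
    rw [J_mid_rec, eps'_rec u i.val i.2]
    ring
  rw [hmid, (J_ends u m _).1, (J_ends u m _).2, Pi.star_apply, Pi.star_apply,
    (eps_zero_last u hu m).1, (eps_zero_last u hu m).2]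
  unfold eps'
  dsimp only
  rw [show m + 2 - 0 = m + 2 by omega, show m + 2 - (m + 1) = 1 by omega,
    show m + 2 - m = 2 by omega, show m + 2 - 1 = m + 1 by omega]
  ring

end

end Pool.Agent.H99.KR
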