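import Pool.Agent.H99.KR.Birth

/-!
# The decomposition `Dec` for iterated births

`dec_zero`: a braid with `b = 0`: `Q : Fin m × (Fin 0 ⊕ Fin m)` is the identity up to the obvious equivalence,
`N = M`, `G' = J`, `G` is the empty matrix (`det = 1`).
`dec_birth`: from `Q = [Q_E | Q_C]` for `x` make `[mid Q_E, eps | mid Q_C, eps']` for the birth; the new
fixed space has Gram matrix `diag (G, g)` with `g` of `gram_eps`, and the new `N` is `diag (N, -1)`, so
`det (1 - N)` is multiplied by `2`.  Reindex `Fin b ⊕ Unit ≃ Fin (b+1)`, `Fin k ⊕ Unit ≃ Fin (k+1)`.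
Inverse of the new `Q`: it is a square matrix (cardinalities) with independent columns, or give `Q'`
explicitly; it is enough to show that the columns are linearly independent / the determinant of the 2 × 2 block of
the outer coordinates is `2 (u^(m+2) - u)(u^(m+2) + u) ≠ 0`.
-/

namespace Pool.Agent.H99.KR
open Matrix

section
variable {F : Type*} [Field F] [StarRing F] (u : Fˣ)

lemma dec_zero {m : ℕ} (x : Br m) :
    Dec (J u m) (((u : F) ^ (m + 1)) • Mat u x) 0 (Dt u x) 1 := by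
  sorry

lemma dec_birth (hu : star (u : F) = ((u⁻¹ : Fˣ) : F)) (h2 : (2 : F) ≠ 0)
    (hgen : ∀ k : ℕ, 0 < k → (u : F) ^ k ≠ 1) {m : ℕ} (x : Br m) (b : ℕ) (d γ : F)
    (h : Dec (J u m) (((u : F) ^ (m + 1)) • Mat u x) b d γ) :
    Dec (J u (m + 2)) (((u : F) ^ (m + 3)) • Mat u (birthP ⟨m, x⟩).2) (b + 1) (2 * d)
      (γ * (-2 * ((u⁻¹ : Fˣ) : F) ^ (m + 2) * ((u : F) ^ (m + 3) - 1) * ((u : F) ^ (m + 1) - 1))) := by
  sorry

/-- Iterated births (statement over the sigma type; induction with `Function.iterate_succ_apply'`). -/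
lemma dec_births (hu : star (u : F) = ((u⁻¹ : Fˣ) : F)) (h2 : (2 : F) ≠ 0)
    (hgen : ∀ k : ℕ, 0 < k → (u : F) ^ k ≠ 1) (x : St) (b : ℕ) :
    (birthP^[b] x).1 = x.1 + 2 * b ∧
    Dec (J u (birthP^[b] x).1) (((u : F) ^ ((birthP^[b] x).1 + 1)) • Mat u (birthP^[b] x).2) b
      (2 ^ b * Dt u x.2)
      (∏ i ∈ Finset.range b, (-2 * ((u⁻¹ : Fˣ) : F) ^ (x.1 + 2 * i + 2) *
        ((u : F) ^ (x.1 + 2 * i + 3) - 1) * ((u : F) ^ (x.1 + 2 * i + 1) - 1))) := by
  sorry

end

end Pool.Agent.H99.KR
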