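import Pool.Agent.H99.KR.Seq

/-!
# The half twist acts by `- u^(m+1)` times the flip

PROOF of `rho_Δ` by induction on `m`.  First the sequence `c = rho u a (desc m) x`
(`desc m = σ_m ⋯ σ_0`, so `σ_0` acts first): with `a = 0`,
`c_k = u (x_{k+1} + u^k x_{-1} - u^(k+1) x_0)` for `0 ≤ k ≤ m`, all other coordinates unchanged (induction
on the number of factors; `List.finRange_succ_last`-type lemma or a separate recursion
`desc (m+1) = s_{m+1} * ι (desc m)`).  Then `Δ (m+1) = ι (Δ m) * desc m`; apply the formula of `Δ m` to `c`: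
`-u^(m+1) c_{m-1-i} + u^(m-i) c_m + u^(i+1) x_{-1}
 = -u^(m+2) x_{m-i} + u^(m+1-i) x_{m+1} + u^(i+1) x_{-1}` (the terms with `x_0` cancel, and the two terms
`u^(2m+1-i) x_{-1}` cancel); the coordinate `i = m` is `c_m`.
-/

namespace Pool.Agent.H99.KR
open Matrix

section
variable {R : Type*} [CommRing R] (u : Rˣ)

/-- The product `σ_{n-1} ⋯ σ_0` on sequences. -/
lemma rho_desc_eq (a : ℤ) (m : ℕ) :
    rho u a (desc m) = ((List.range (m + 1)).reverse.map (fun i : ℕ => T u (a + i))).prod := by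
  rw [desc, map_list_prod, List.map_map]
  have h1 : (List.range (m + 1)).reverse.map (fun i : ℕ => T u (a + i)) =
      (List.finRange (m + 1)).reverse.map (fun i => T u (a + i.val)) := by
    rw [← List.map_coe_finRange_eq_range, ← List.map_reverse, List.map_map]
    rfl
  rw [h1]
  congr 1

lemma desc_aux (a : ℤ) (x : ℤ → R) (n : ℕ) :
    (∀ k : ℕ, k < n → ((List.range n).reverse.map (fun i : ℕ => T u (a + i))).prod x (a + k) =
      (u : R) * (x (a + k + 1) + (u : R) ^ k * x (a - 1) - (u : R) ^ (k + 1) * x a)) ∧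
    (∀ j : ℤ, (j < a ∨ a + n ≤ j) →
      ((List.range n).reverse.map (fun i : ℕ => T u (a + i))).prod x j = x j) := by
  induction n with
  | zero => simp
  | succ n ih =>
    obtain ⟨ih1, ih2⟩ := ih
    have hs : ((List.range (n + 1)).reverse.map (fun i : ℕ => T u (a + i))).prod =
        T u (a + n) * ((List.range n).reverse.map (fun i : ℕ => T u (a + i))).prod := by
      rw [List.range_succ, List.reverse_append]
      simp
    set P := ((List.range n).reverse.map (fun i : ℕ => T u (a + i))).prod with hP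
    rw [hs]
    have hmul : ∀ j, (T u (a + n) * P) x j = T u (a + n) (P x) j := fun j => rfl
    constructor
    · intro k hk
      rw [hmul, T_apply]
      rcases Nat.lt_succ_iff_lt_or_eq.1 hk with h | h
      · rw [if_neg (by omega), ih1 k h]
      · subst h
        rw [if_pos rfl, ih2 (a + k) (Or.inr le_rfl), ih2 (a + k + 1) (Or.inr (by omega))]
        rcases Nat.eq_zero_or_pos k with h0 | h0
        · subst h0
          rw [ih2 (a + ((0 : ℕ) : ℤ) - 1) (Or.inl (by simp))]
          simp; ring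
        · obtain ⟨k, rfl⟩ : ∃ k', k = k' + 1 := ⟨k - 1, by omega⟩
          have e1 : a + ((k + 1 : ℕ) : ℤ) - 1 = a + (k : ℤ) := by push_cast; ring
          rw [e1, ih1 k (by omega)]
          have e2 : a + (k : ℤ) + 1 = a + ((k + 1 : ℕ) : ℤ) := by push_cast; ring
          rw [e2]
          ring
    · intro j hj
      rw [hmul, T_apply, if_neg (by push_cast at hj; omega), ih2 j (by push_cast at hj; omega)]

lemma rho_desc (a : ℤ) (m : ℕ) (x : ℤ → R) (k : ℕ) (hk : k ≤ m) :
    rho u a (desc m) x (a + k) =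
      (u : R) * (x (a + k + 1) + (u : R) ^ k * x (a - 1) - (u : R) ^ (k + 1) * x a) := by
  rw [rho_desc_eq]
  exact (desc_aux u a x (m + 1)).1 k (by omega)

lemma rho_desc_off (a : ℤ) (m : ℕ) (x : ℤ → R) (j : ℤ) (hj : j < a ∨ a + m < j) :
    rho u a (desc m) x j = x j := by
  rw [rho_desc_eq]
  exact (desc_aux u a x (m + 1)).2 j (by push_cast; omega)

lemma rho_Δ_off (a : ℤ) (m : ℕ) (x : ℤ → R) (j : ℤ) (hj : j < a ∨ a + m ≤ j) :
    rho u a (Δ m) x j = x j := by
  induction m generalizing x with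
  | zero => simp [Δ]
  | succ m ih =>
    have hmul : rho u a (Δ (m + 1)) x j = rho u a (Δ m) (rho u a (desc m) x) j := by
      rw [Δ, map_mul, rho_ι]; rfl
    rw [hmul, ih _ (by push_cast at hj; omega), rho_desc_off u a m x j (by push_cast at hj; omega)]

lemma rho_Δ (a : ℤ) (m : ℕ) (x : ℤ → R) (i : ℕ) (hi : i < m) :
    rho u a (Δ m) x (a + i) =
      - (u : R) ^ (m + 1) * x (a + m - 1 - i) + (u : R) ^ (m - i) * x (a + m)
        + (u : R) ^ (i + 1) * x (a - 1) := by
  induction m generalizing x with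
  | zero => omega
  | succ m ih =>
    have hmul : rho u a (Δ (m + 1)) x (a + i) = rho u a (Δ m) (rho u a (desc m) x) (a + i) := by
      rw [Δ, map_mul, rho_ι]; rfl
    rw [hmul]
    rcases Nat.lt_succ_iff_lt_or_eq.1 hi with h | h
    · rw [ih _ h, rho_desc_off u a m x (a - 1) (Or.inl (by omega))]
      obtain ⟨d, rfl⟩ : ∃ d, m = i + 1 + d := ⟨m - i - 1, by omega⟩
      have e1 : a + ((i + 1 + d : ℕ) : ℤ) - 1 - i = a + (d : ℤ) := by push_cast; ring
      rw [e1, rho_desc u a _ x d (by omega), rho_desc u a _ x (i + 1 + d) le_rfl]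
      have e2 : a + ((i + 1 + d + 1 : ℕ) : ℤ) - 1 - i = a + (d : ℤ) + 1 := by push_cast; ring
      have e3 : a + ((i + 1 + d : ℕ) : ℤ) + 1 = a + ((i + 1 + d + 1 : ℕ) : ℤ) := by push_cast; ring
      have e4 : i + 1 + d - i = d + 1 := by omega
      have e5 : i + 1 + d + 1 - i = d + 2 := by omega
      rw [e2, e3, e4, e5]
      ring
    · subst h
      rw [rho_Δ_off u a i _ (a + i) (Or.inr le_rfl), rho_desc u a i x i le_rfl]
      have e2 : a + ((i + 1 : ℕ) : ℤ) - 1 - i = a := by push_cast; ring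
      have e3 : a + (i : ℤ) + 1 = a + ((i + 1 : ℕ) : ℤ) := by push_cast; ring
      have e4 : i + 1 - i = 1 := by omega
      rw [e2, e3, e4]
      ring

lemma inc_zero_nat {m : ℕ} (x : Fin m → R) (i : Fin m) : inc 0 x ((i.val : ℕ) : ℤ) = x i := by
  unfold inc
  rw [dif_pos (by have := i.2; omega)]
  congr 1

/-- The matrix of the half twist. -/
lemma Mat_Δ (m : ℕ) (x : Fin m → R) :
    Mat u (Δ m) *ᵥ x = fun i => - (u : R) ^ (m + 1) * x (Fin.rev i) := by
  funext i
  rw [← inc_zero_nat (Mat u (Δ m) *ᵥ x) i, ← rho_inc]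
  have h := rho_Δ u 0 m (inc 0 x) i.val i.2
  rw [zero_add] at h
  rw [h]
  have h1 : inc 0 x ((0 : ℤ) + m) = 0 := by
    unfold inc; rw [dif_neg (by omega)]
  have h2 : inc 0 x ((0 : ℤ) - 1) = 0 := by
    unfold inc; rw [dif_neg (by omega)]
  have h3 : (0 : ℤ) + m - 1 - i.val = ((Fin.rev i).val : ℤ) := by
    have := i.2
    rw [Fin.val_rev]; omega
  rw [h1, h2, h3, inc_zero_nat]
  ring

/-- The matrix of the inverse half twist. -/
lemma Mat_Δ_inv (m : ℕ) (x : Fin m → R) :
    Mat u ((Δ m)⁻¹) *ᵥ x = fun i => - ((u⁻¹ : Rˣ) : R) ^ (m + 1) * x (Fin.rev i) := by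
  have h : Mat u (Δ m) *ᵥ (fun i => - ((u⁻¹ : Rˣ) : R) ^ (m + 1) * x (Fin.rev i)) = x := by
    rw [Mat_Δ]
    funext i
    rw [Fin.rev_rev]
    have : (u : R) ^ (m + 1) * ((u⁻¹ : Rˣ) : R) ^ (m + 1) = 1 := by
      rw [← mul_pow, Units.mul_inv, one_pow]
    linear_combination x i * this
  conv_lhs => rw [← h]
  rw [Matrix.mulVec_mulVec, ← Mat_mul, inv_mul_cancel, Mat_one, Matrix.one_mulVec]

end

end Pool.Agent.H99.KR
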