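import Pool.Agent.H99.KR.Delta

/-!
# The determinant of the example

`K = Δ⁻¹ ρ` in `Br 4` (five strands), `ρ = σ₃⁻² σ₂⁻¹ σ₁² σ₂⁻¹ σ₁ σ₃` (0-indexed generators; 1-indexed:
`-4 -4 -3 2 2 -3 2 4`).  `u⁵ Mat K = - flip * Mat ρ` by `Mat_Δ_inv`, so `Dt u K = det (1 + flip * Mat ρ)`, a 4 × 4
determinant.  Claim: `Dt u K * (1 - u) = u⁻² (1 + (u - u⁻¹)^4) (1 - u⁵)`.
(Checked by computer: `Dt u K = u^{-6}(1 + u - 3u² - 3u³ + 4u⁴ + 3u⁵ - u⁶ + 3u⁷ + 4u⁸ - 3u⁹ - 3u¹⁰ + u¹¹ + u¹²)`.)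
-/

namespace Pool.Agent.H99.KR
open Matrix

/-- The braid `ρ`. -/
def rhoK : Br 4 :=
  (s 3)⁻¹ * (s 3)⁻¹ * (s 2)⁻¹ * s 1 * s 1 * (s 2)⁻¹ * s 1 * s 3

/-- The class-1 knot. -/
def K : St := ⟨4, (Δ 4)⁻¹ * rhoK⟩

private lemma desc0 : desc 0 = s 0 := by
  unfold desc
  exact mul_one _

private lemma desc1 : desc 1 = s 1 * s 0 := by
  unfold desc
  change s 1 * (s 0 * 1) = _
  rw [mul_one]

private lemma desc2 : desc 2 = s 2 * (s 1 * s 0) := by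
  unfold desc
  change s 2 * (s 1 * (s 0 * 1)) = _
  rw [mul_one]

private lemma desc3 : desc 3 = s 3 * (s 2 * (s 1 * s 0)) := by
  unfold desc
  change s 3 * (s 2 * (s 1 * (s 0 * 1))) = _
  rw [mul_one]

private lemma ι_s {m : ℕ} (i : Fin m) : ι (s i) = s i.castSucc := by
  unfold ι; rw [Br.lift_s]

private lemma Δ4 : Δ 4 = s 0 * (s 1 * s 0) * (s 2 * (s 1 * s 0)) * (s 3 * (s 2 * (s 1 * s 0))) := by
  simp only [Δ, desc0, desc1, desc2, desc3, map_mul, map_one, ι_s, one_mul]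
  rfl

private lemma perm_s {m : ℕ} (i : Fin m) : perm (s i) = Equiv.swap i.castSucc i.succ := by
  unfold perm; rw [Br.lift_s]

private def PK : Equiv.Perm (Fin 5) := (Equiv.swap (0 : Fin 5) 1 *
      (Equiv.swap 1 2 * Equiv.swap 0 1) *
      (Equiv.swap 2 3 * (Equiv.swap 1 2 * Equiv.swap 0 1)) *
      (Equiv.swap 3 4 * (Equiv.swap 2 3 * (Equiv.swap 1 2 * Equiv.swap 0 1))))⁻¹ *
      ((Equiv.swap 3 4)⁻¹ * (Equiv.swap 3 4)⁻¹ * (Equiv.swap 2 3)⁻¹ * Equiv.swap 1 2 *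
        Equiv.swap 1 2 * (Equiv.swap 2 3)⁻¹ * Equiv.swap 1 2 * Equiv.swap 3 4)

theorem isKnot_K : IsKnot K := by
  have h : perm K.2 = PK := by
    unfold K rhoK PK
    simp only [Δ4, map_mul, map_inv, perm_s]
    rfl
  unfold IsKnot
  rw [h]
  have key : ∀ a b : Fin 5, ∃ k : Fin 5, (PK ^ (k : ℕ)) a = b := by
    decide
  intro a b
  obtain ⟨k, hk⟩ := key a b
  exact ⟨k, hk⟩

section
variable {F : Type*} [Field F] (u : Fˣ)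

private lemma st1 (x₀ x₁ x₂ x₃ : F) : Mat u (s (1 : Fin 4)) *ᵥ ![x₀, x₁, x₂, x₃] =
    ![x₀, (u : F) * (x₀ + x₂ - (u : F) * x₁), x₂, x₃] := by
  funext j
  rw [Mat_s]
  fin_cases j <;> simp

private lemma st2 (x₀ x₁ x₂ x₃ : F) : Mat u (s (2 : Fin 4)) *ᵥ ![x₀, x₁, x₂, x₃] =
    ![x₀, x₁, (u : F) * (x₁ + x₃ - (u : F) * x₂), x₃] := by
  funext j
  rw [Mat_s]
  fin_cases j <;> simp

private lemma st3 (x₀ x₁ x₂ x₃ : F) : Mat u (s (3 : Fin 4)) *ᵥ ![x₀, x₁, x₂, x₃] =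
    ![x₀, x₁, x₂, (u : F) * (x₂ - (u : F) * x₃)] := by
  funext j
  rw [Mat_s]
  fin_cases j <;> simp

private lemma inv_of {m : ℕ} (g : Br m) (x y : Fin m → F) (h : Mat u g *ᵥ y = x) :
    Mat u g⁻¹ *ᵥ x = y := by
  rw [← h, Matrix.mulVec_mulVec, ← Mat_mul, inv_mul_cancel, Mat_one, Matrix.one_mulVec]

private lemma st2i (x₀ x₁ x₂ x₃ : F) : Mat u (s (2 : Fin 4))⁻¹ *ᵥ ![x₀, x₁, x₂, x₃] =
    ![x₀, x₁, (u : F)⁻¹ * (x₁ + x₃ - (u : F)⁻¹ * x₂), x₃] := by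
  apply inv_of
  rw [st2]
  have hu := u.ne_zero
  congr 3
  field_simp
  ring_nf

private lemma st3i (x₀ x₁ x₂ x₃ : F) : Mat u (s (3 : Fin 4))⁻¹ *ᵥ ![x₀, x₁, x₂, x₃] =
    ![x₀, x₁, x₂, (u : F)⁻¹ * (x₂ - (u : F)⁻¹ * x₃)] := by
  apply inv_of
  rw [st3]
  have hu := u.ne_zero
  congr 4
  field_simp
  ring_nf

private def MK (a b : F) : Matrix (Fin 4) (Fin 4) F :=
  !![1, 0, 0, 0;
      a ^ 5 - 2 * a ^ 3 + 2 * a, -a ^ 6 + a ^ 4 - a ^ 2, a ^ 5 - 2 * a ^ 3 + 3 * a - b, a ^ 4 - a ^ 2;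
      a ^ 4 - 2 * a ^ 2 + 2 - b ^ 2, -a ^ 5 + a ^ 3 - a + b, a ^ 4 - 2 * a ^ 2 + 4 - 3 * b ^ 2 + b ^ 4, a ^ 3 - 2 * a + b;
      a ^ 3 - 3 * a + 4 * b - 3 * b ^ 3 + b ^ 5, -a ^ 4 + 2 * a ^ 2 - 2 + 2 * b ^ 2 - b ^ 4, a ^ 3 - 3 * a + 6 * b - 6 * b ^ 3 + 4 * b ^ 5 - b ^ 7, a ^ 2 - 3 + 2 * b ^ 2 - b ^ 4]

private def MF (a b : F) : Matrix (Fin 4) (Fin 4) F :=
  !![a ^ 3 - 3 * a + 1 + 4 * b - 3 * b ^ 3 + b ^ 5, -a ^ 4 + 2 * a ^ 2 - 2 + 2 * b ^ 2 - b ^ 4, a ^ 3 - 3 * a + 6 * b - 6 * b ^ 3 + 4 * b ^ 5 - b ^ 7, a ^ 2 - 3 + 2 * b ^ 2 - b ^ 4;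
      a ^ 4 - 2 * a ^ 2 + 2 - b ^ 2, -a ^ 5 + a ^ 3 - a + 1 + b, a ^ 4 - 2 * a ^ 2 + 4 - 3 * b ^ 2 + b ^ 4, a ^ 3 - 2 * a + b;
      a ^ 5 - 2 * a ^ 3 + 2 * a, -a ^ 6 + a ^ 4 - a ^ 2, a ^ 5 - 2 * a ^ 3 + 3 * a + 1 - b, a ^ 4 - a ^ 2;
      1, 0, 0, 1]

private lemma Mat_rhoK : Mat u rhoK = MK (u : F) (u : F)⁻¹ := by
  have key : ∀ x : Fin 4 → F, Mat u rhoK *ᵥ x = MK (u : F) (u : F)⁻¹ *ᵥ x := by
    intro x
    have hx : x = ![x 0, x 1, x 2, x 3] := by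
      funext j; fin_cases j <;> rfl
    rw [hx]
    generalize x 0 = x₀
    generalize x 1 = x₁
    generalize x 2 = x₂
    generalize x 3 = x₃
    unfold rhoK
    simp only [Mat_mul, ← Matrix.mulVec_mulVec, st1, st3, st2i, st3i]
    have hu := u.ne_zero
    funext j
    fin_cases j
    · simp [MK, Matrix.mulVec, dotProduct, Fin.sum_univ_four]
    · simp [MK, Matrix.mulVec, dotProduct, Fin.sum_univ_four]
      field_simp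
      ring
    · simp [MK, Matrix.mulVec, dotProduct, Fin.sum_univ_four]
      field_simp
      ring
    · simp [MK, Matrix.mulVec, dotProduct, Fin.sum_univ_four]
      field_simp
      ring
  exact Matrix.ext_of_mulVec_single fun k => key _

private lemma Dt_eq : Dt u ((Δ 4)⁻¹ * rhoK) = (MF (u : F) (u : F)⁻¹).det := by
  unfold Dt
  congr 1
  have h1 : (((u : F) ^ (4 + 1)) • Mat u ((Δ 4)⁻¹ * rhoK)) =
      - (MK (u : F) (u : F)⁻¹).submatrix Fin.rev id := by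
    apply Matrix.ext_of_mulVec_single
    intro k
    rw [Matrix.smul_mulVec, Mat_mul, ← Matrix.mulVec_mulVec, Mat_rhoK, Mat_Δ_inv]
    funext i
    have hu := u.ne_zero
    simp only [Pi.smul_apply, smul_eq_mul, Units.val_inv_eq_inv_val, Matrix.neg_mulVec,
      Pi.neg_apply]
    have : (((MK (u : F) (u : F)⁻¹).submatrix Fin.rev id) *ᵥ Pi.single k 1) i =
        (MK (u : F) (u : F)⁻¹ *ᵥ Pi.single k 1) (Fin.rev i) := rfl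
    rw [this]
    have h5 : (u : F) ^ (4 + 1) * ((u : F)⁻¹) ^ (4 + 1) = 1 := by
      rw [← mul_pow, mul_inv_cancel₀ hu, one_pow]
    linear_combination (-(MK (u : F) (u : F)⁻¹ *ᵥ Pi.single k 1) (Fin.rev i)) * h5
  rw [h1]
  ext i j
  fin_cases i <;> fin_cases j <;> simp [MK, MF, Fin.rev] <;> ring

end

theorem Dt_K {F : Type*} [Field F] (u : Fˣ) :
    Dt u K.2 * (1 - (u : F)) =
      ((u⁻¹ : Fˣ) : F) ^ 2 * (1 + ((u : F) - ((u⁻¹ : Fˣ) : F)) ^ 4) * (1 - (u : F) ^ 5) := by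
  change Dt u ((Δ 4)⁻¹ * rhoK) * (1 - (u : F)) = _
  rw [Dt_eq]
  have hu := u.ne_zero
  simp only [Units.val_inv_eq_inv_val]
  generalize (u : F) = w at *
  unfold MF
  rw [Matrix.det_succ_row_zero]
  simp only [Fin.sum_univ_four, Matrix.det_fin_three]
  simp [Matrix.submatrix, Fin.succAbove]
  field_simp
  ring

end Pool.Agent.H99.KR
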