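import Pool.Agent.H99.KR.DecB

/-!
# The Fox-Milnor parity for ribbon concordance in the braid model

`κ(x) = Dt u x.2 * (u^(x.1+1) - 1)`.  For a ribbon concordance from `x` to `y` (k births, k bands):
`Dt y = Dt x * 2^k * ∏ (-2 u^{-(..)} (u^{n_i+2}-1)(u^{n_i}-1)) * (∏ c_j) * (a * star a)`, `c_j = u^{±1}`,
`n_i = x.1 + 1 + 2 i`.  Put this in the valuation: `v(u) = 0` (from `star u = u⁻¹`), `v(-1) = 0`, the factors
`2` occur `2k` times, and the product telescopes modulo 2: it contains each of `u^{n_i} - 1`, `0 < i < k`, twice.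
So `v (Dt y) ≡ v (Dt x) + v (u^(x.1+1) - 1) + v (u^(y.1+1) - 1)` mod 2 (`k = 0`: the product is empty and `y.1 = x.1`).
Conjugation does not change `Dt`.
-/

namespace Pool.Agent.H99.KR
open Matrix

/-- A star-invariant, multiplicative map to `ℤ` (only multiplicativity is used). -/
structure Val (F : Type*) [Field F] [StarRing F] where
  v : F → ℤ
  mul : ∀ x y, x ≠ 0 → y ≠ 0 → v (x * y) = v x + v y
  star : ∀ x, v (Star.star x) = v x

section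
variable {F : Type*} [Field F] [StarRing F] (u : Fˣ)

lemma Dt_conj {m : ℕ} (g x : Br m) : Dt u (g * x * g⁻¹) = Dt u x := by
  unfold Dt
  rw [Mat_mul, Mat_mul, Matrix.mul_assoc, ← Matrix.mul_smul, Matrix.det_one_sub_mul_comm,
    Matrix.smul_mul, Matrix.mul_assoc, ← Mat_mul, inv_mul_cancel, Mat_one, Matrix.mul_one]

private lemma val_one (V : Val F) : V.v 1 = 0 := by
  have h := V.mul 1 1 one_ne_zero one_ne_zero
  rw [mul_one] at h
  omega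

private lemma val_neg_one (V : Val F) : V.v (-1) = 0 := by
  have h := V.mul (-1) (-1) (neg_ne_zero.2 one_ne_zero) (neg_ne_zero.2 one_ne_zero)
  rw [neg_mul_neg, mul_one, val_one] at h
  omega

private lemma val_inv (V : Val F) {x : F} (hx : x ≠ 0) : V.v x⁻¹ = - V.v x := by
  have h := V.mul x x⁻¹ hx (inv_ne_zero hx)
  rw [mul_inv_cancel₀ hx, val_one] at h
  omega

private lemma val_u (hu : star (u : F) = ((u⁻¹ : Fˣ) : F)) (V : Val F) : V.v (u : F) = 0 := by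
  have h := V.star (u : F)
  rw [hu, Units.val_inv_eq_inv_val, val_inv V u.ne_zero] at h
  omega

private lemma val_u_inv (hu : star (u : F) = ((u⁻¹ : Fˣ) : F)) (V : Val F) :
    V.v ((u⁻¹ : Fˣ) : F) = 0 := by
  rw [Units.val_inv_eq_inv_val, val_inv V u.ne_zero, val_u u hu V, neg_zero]

private lemma val_pow (V : Val F) {x : F} (hx : x ≠ 0) (n : ℕ) : V.v (x ^ n) = n * V.v x := by
  induction n with
  | zero => simp [val_one]
  | succ n ih =>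
    rw [pow_succ, V.mul _ _ (pow_ne_zero n hx) hx, ih]
    push_cast
    ring

private lemma sub_ne (hgen : ∀ k : ℕ, 0 < k → (u : F) ^ k ≠ 1) (k : ℕ) (hk : 0 < k) :
    (u : F) ^ k - 1 ≠ 0 := sub_ne_zero.2 (hgen k hk)

private lemma gam_ne (h2 : (2 : F) ≠ 0) (hgen : ∀ k : ℕ, 0 < k → (u : F) ^ k ≠ 1) (m i : ℕ) :
    (-2 * ((u⁻¹ : Fˣ) : F) ^ (m + 2 * i + 2) *
        ((u : F) ^ (m + 2 * i + 3) - 1) * ((u : F) ^ (m + 2 * i + 1) - 1)) ≠ 0 := by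
  have h3 : ((u⁻¹ : Fˣ) : F) ≠ 0 := Units.ne_zero _
  exact mul_ne_zero (mul_ne_zero (mul_ne_zero (neg_ne_zero.2 h2) (pow_ne_zero _ h3))
    (sub_ne u hgen _ (by omega))) (sub_ne u hgen _ (by omega))

private lemma gam_val (hu : star (u : F) = ((u⁻¹ : Fˣ) : F)) (h2 : (2 : F) ≠ 0)
    (hgen : ∀ k : ℕ, 0 < k → (u : F) ^ k ≠ 1) (V : Val F) (m i : ℕ) :
    V.v (-2 * ((u⁻¹ : Fˣ) : F) ^ (m + 2 * i + 2) *
        ((u : F) ^ (m + 2 * i + 3) - 1) * ((u : F) ^ (m + 2 * i + 1) - 1)) =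
      V.v 2 + V.v ((u : F) ^ (m + 2 * i + 3) - 1) + V.v ((u : F) ^ (m + 2 * i + 1) - 1) := by
  have h3 : ((u⁻¹ : Fˣ) : F) ≠ 0 := Units.ne_zero _
  have h4 : (-2 : F) ≠ 0 := neg_ne_zero.2 h2
  rw [V.mul _ _ (mul_ne_zero (mul_ne_zero h4 (pow_ne_zero _ h3)) (sub_ne u hgen _ (by omega)))
      (sub_ne u hgen _ (by omega)),
    V.mul _ _ (mul_ne_zero h4 (pow_ne_zero _ h3)) (sub_ne u hgen _ (by omega)),
    V.mul _ _ h4 (pow_ne_zero _ h3), val_pow V h3, val_u_inv u hu V,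
    show (-2 : F) = -1 * 2 by ring, V.mul _ _ (neg_ne_zero.2 one_ne_zero) h2, val_neg_one]
  ring

private lemma prod_val (hu : star (u : F) = ((u⁻¹ : Fˣ) : F)) (h2 : (2 : F) ≠ 0)
    (hgen : ∀ k : ℕ, 0 < k → (u : F) ^ k ≠ 1) (V : Val F) (m k : ℕ) :
    ∃ e : ℤ, V.v (∏ i ∈ Finset.range k, (-2 * ((u⁻¹ : Fˣ) : F) ^ (m + 2 * i + 2) *
        ((u : F) ^ (m + 2 * i + 3) - 1) * ((u : F) ^ (m + 2 * i + 1) - 1))) =
      k * V.v 2 + V.v ((u : F) ^ (m + 1) - 1) + V.v ((u : F) ^ (m + 2 * k + 1) - 1) + 2 * e := by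
  induction k with
  | zero =>
    refine ⟨- V.v ((u : F) ^ (m + 1) - 1), ?_⟩
    rw [Finset.prod_range_zero, val_one, Nat.mul_zero, Nat.add_zero]
    push_cast
    ring
  | succ k ih =>
    obtain ⟨e, he⟩ := ih
    refine ⟨e + V.v ((u : F) ^ (m + 2 * k + 1) - 1), ?_⟩
    rw [Finset.prod_range_succ, V.mul _ _ (Finset.prod_ne_zero_iff.2 fun i _ =>
      gam_ne u h2 hgen m i) (gam_ne u h2 hgen m k), he, gam_val u hu h2 hgen V m k,
      show m + 2 * (k + 1) + 1 = m + 2 * k + 3 by ring]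
    push_cast
    ring

private lemma list_refl (hu : star (u : F) = ((u⁻¹ : Fˣ) : F)) {m : ℕ} (l : List (Br m))
    (hl : ∀ b ∈ l, IsBand b) :
    ∃ l' : List ((Fin m → F) × F), l'.length = l.length ∧
      (∀ p ∈ l', p.2 = u ∨ p.2 = ((u⁻¹ : Fˣ) : F)) ∧
      Mat u l.prod = (l'.map (fun p => (1 : Matrix (Fin m) (Fin m) F) -
        p.2 • Matrix.vecMulVec p.1 (star p.1 ᵥ* J u m))).prod := by
  induction l with
  | nil => exact ⟨[], rfl, by simp, by simp [Mat_one]⟩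
  | cons b l ih =>
    obtain ⟨l', h1, h2, h3⟩ := ih fun c hc => hl c (List.mem_cons_of_mem _ hc)
    obtain ⟨w, c, hc, hw⟩ := band u hu b (hl b List.mem_cons_self)
    refine ⟨(w, c) :: l', by simp [h1], ?_, ?_⟩
    · intro p hp
      rcases List.mem_cons.1 hp with rfl | hp
      · exact hc
      · exact h2 p hp
    · rw [List.prod_cons, Mat_mul, h3, hw, List.map_cons, List.prod_cons]

private lemma list_val (hu : star (u : F) = ((u⁻¹ : Fˣ) : F)) (V : Val F) {m : ℕ}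
    (l : List ((Fin m → F) × F)) (hl : ∀ p ∈ l, p.2 = u ∨ p.2 = ((u⁻¹ : Fˣ) : F)) :
    (l.map Prod.snd).prod ≠ 0 ∧ V.v (l.map Prod.snd).prod = 0 := by
  induction l with
  | nil => simp [val_one]
  | cons p l ih =>
    obtain ⟨h1, h2⟩ := ih fun c hc => hl c (List.mem_cons_of_mem _ hc)
    have h3 : p.2 ≠ 0 ∧ V.v p.2 = 0 := by
      rcases hl p List.mem_cons_self with h | h
      · rw [h]
        exact ⟨Units.ne_zero _, val_u u hu V⟩
      · rw [h]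
        exact ⟨Units.ne_zero _, val_u_inv u hu V⟩
    rw [List.map_cons, List.prod_cons]
    refine ⟨mul_ne_zero h3.1 h1, ?_⟩
    rw [V.mul _ _ h3.1 h1, h3.2, h2, add_zero]

/-- The invariant. -/
def kap (x : St) : F := Dt u x.2 * ((u : F) ^ (x.1 + 1) - 1)

lemma ribbon_parity (hu : star (u : F) = ((u⁻¹ : Fˣ) : F)) (h2 : (2 : F) ≠ 0)
    (hgen : ∀ k : ℕ, 0 < k → (u : F) ^ k ≠ 1)
    (hnv : ∀ (m : ℕ) (g : Br m), Even m → IsKnot ⟨m, g⟩ → Dt u g ≠ 0) (V : Val F)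
    (x y : St) (h : Ribbon birthP x y) :
    (Even x.1 ↔ Even y.1) ∧ (Even x.1 → Even (V.v (kap u x) - V.v (kap u y))) := by
  obtain ⟨hx, hy, k, l, g, hlen, hl, hyz⟩ := h
  obtain ⟨hz1, hdec⟩ := dec_births u hu h2 hgen x k
  have hy1 : y.1 = x.1 + 2 * k := by
    rw [hyz]
    exact hz1
  have hev : Even x.1 ↔ Even y.1 := by
    rw [hy1, Nat.even_add]
    exact ⟨fun h => ⟨fun _ => even_two_mul k, fun _ => h⟩, fun h => h.2 (even_two_mul k)⟩
  refine ⟨hev, fun hxe => ?_⟩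
  have hDx : Dt u x.2 ≠ 0 := hnv x.1 x.2 hxe hx
  have hDy : Dt u y.2 ≠ 0 := hnv y.1 y.2 (hev.1 hxe) hy
  obtain ⟨l', hl1, hl2, hl3⟩ := list_refl u hu l hl
  obtain ⟨a, ha⟩ := det_dec _ _ k _ _ hdec l' (hl1.trans hlen)
  have hDy2 : Dt u y.2 = 2 ^ k * Dt u x.2 *
      (∏ i ∈ Finset.range k, (-2 * ((u⁻¹ : Fˣ) : F) ^ (x.1 + 2 * i + 2) *
        ((u : F) ^ (x.1 + 2 * i + 3) - 1) * ((u : F) ^ (x.1 + 2 * i + 1) - 1))) *
        (l'.map Prod.snd).prod * (a * star a) := by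
    rw [← ha, ← hl3, hyz]
    show Dt u (g * ((birthP^[k] x).2 * l.prod) * g⁻¹) = _
    rw [Dt_conj, Dt, Mat_mul, Matrix.smul_mul]
  obtain ⟨e, he⟩ := prod_val u hu h2 hgen V x.1 k
  obtain ⟨hp1, hp2⟩ := list_val u hu V l' hl2
  have ha0 : a ≠ 0 := by
    intro h0
    rw [h0, zero_mul, mul_zero] at hDy2
    exact hDy hDy2
  have hsa0 : star a ≠ 0 := star_ne_zero.2 ha0
  have hP0 : (∏ i ∈ Finset.range k, (-2 * ((u⁻¹ : Fˣ) : F) ^ (x.1 + 2 * i + 2) *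
        ((u : F) ^ (x.1 + 2 * i + 3) - 1) * ((u : F) ^ (x.1 + 2 * i + 1) - 1))) ≠ 0 :=
    Finset.prod_ne_zero_iff.2 fun i _ => gam_ne u h2 hgen x.1 i
  have h2k : (2 : F) ^ k ≠ 0 := pow_ne_zero k h2
  have hvy : V.v (Dt u y.2) = k * V.v 2 + V.v (Dt u x.2) +
      (k * V.v 2 + V.v ((u : F) ^ (x.1 + 1) - 1) + V.v ((u : F) ^ (x.1 + 2 * k + 1) - 1) + 2 * e)
      + 0 + (V.v a + V.v a) := by
    rw [hDy2, V.mul _ _ (mul_ne_zero (mul_ne_zero (mul_ne_zero h2k hDx) hP0) hp1)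
        (mul_ne_zero ha0 hsa0),
      V.mul _ _ (mul_ne_zero (mul_ne_zero h2k hDx) hP0) hp1,
      V.mul _ _ (mul_ne_zero h2k hDx) hP0, V.mul _ _ h2k hDx, V.mul _ _ ha0 hsa0, V.star, he, hp2,
      val_pow V h2]
  have hkx : V.v (kap u x) = V.v (Dt u x.2) + V.v ((u : F) ^ (x.1 + 1) - 1) := by
    rw [kap, V.mul _ _ hDx (sub_ne u hgen _ (by omega))]
  have hky : V.v (kap u y) = V.v (Dt u y.2) + V.v ((u : F) ^ (x.1 + 2 * k + 1) - 1) := by
    have hy2 : (u : F) ^ (y.1 + 1) = (u : F) ^ (x.1 + 2 * k + 1) := by rw [hy1]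
    rw [kap, hy2, V.mul _ _ hDy (sub_ne u hgen _ (by omega))]
  rw [hkx, hky, hvy]
  refine ⟨-(k * V.v 2 + V.v ((u : F) ^ (x.1 + 2 * k + 1) - 1) + e + V.v a), ?_⟩
  ring

lemma conc_parity (hu : star (u : F) = ((u⁻¹ : Fˣ) : F)) (h2 : (2 : F) ≠ 0)
    (hgen : ∀ k : ℕ, 0 < k → (u : F) ^ k ≠ 1)
    (hnv : ∀ (m : ℕ) (g : Br m), Even m → IsKnot ⟨m, g⟩ → Dt u g ≠ 0) (V : Val F)
    (x y : St) (h : Concordant birthP x y) :
    (Even x.1 ↔ Even y.1) ∧ (Even x.1 → Even (V.v (kap u x) - V.v (kap u y))) := by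
  induction h with
  | rel x y h => exact ribbon_parity u hu h2 hgen hnv V x y h
  | refl x => exact ⟨Iff.rfl, fun _ => by simp⟩
  | symm x y _ ih =>
    refine ⟨ih.1.symm, fun h => ?_⟩
    have := ih.2 (ih.1.2 h)
    rw [← neg_sub]; exact this.neg
  | trans x y z _ _ ih1 ih2 =>
    refine ⟨ih1.1.trans ih2.1, fun h => ?_⟩
    have h1 := ih1.2 h
    have h2 := ih2.2 (ih1.1.1 h)
    have := h1.add h2
    simpa using this

end

end Pool.Agent.H99.KR
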