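import Pool.Agent.H99.KR.NonVan
import Pool.Agent.H99.KR.Parity

/-!
# The field `F = 𝔽₅(u)`, the involution `u ↦ u⁻¹` and the place `u² + u + 1`

PROOF.  `F = RatFunc (ZMod 5)` (or `FractionRing (ZMod 5)[X]`).
* star: the ring endomorphism `X ↦ X⁻¹` (`IsFractionRing.lift` / `RatFunc.liftRingHom` of `aeval X⁻¹`, injective because
  `X⁻¹` is transcendental: `X^deg * f(X⁻¹)` is the polynomial `f.reverse` up to a power of `X`).
* `u = X`, not a root of unity, `2 ≠ 0`.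
* `Dt ≠ 0`: with `R = (ZMod 5)[T;T⁻¹]` and `u_R = T`: `Dt u_F = alg (Dt u_R)` with `alg : R → F` injective, and
  `Dt (-1) = (T ↦ -1) (Dt u_R) ≠ 0` by `Dt_neg_one` (`Dt_map` twice).
* `V`: the `p`-adic valuation, `p = X² + X + 1`, irreducible over `ZMod 5` (no root); `v = 0` at `0`.
  Star invariance: `star f = reverse f * X^(-natDegree f)` for a polynomial `f`, `reverse` is multiplicative
  (`Polynomial.reverse_mul_of_domain`), `reverse p = p`, `v X = 0`.
* `1 + (u - u⁻¹)^4 = u^{-4} (X² + X + 1)(X² - X + 1)(X⁴ + 1)` in characteristic 5, and `p` does not divide the two other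
  factors, so `v = 1`.
-/

namespace Pool.Agent.H99.KR

theorem exists_field : ∃ (F : Type) (_ : Field F) (_ : StarRing F) (u : Fˣ) (V : Val F),
    star (u : F) = ((u⁻¹ : Fˣ) : F) ∧ (2 : F) ≠ 0 ∧ (∀ k : ℕ, 0 < k → (u : F) ^ k ≠ 1) ∧
    (∀ (m : ℕ) (g : Br m), Even m → IsKnot ⟨m, g⟩ → Dt u g ≠ 0) ∧
    Odd (V.v (1 + ((u : F) - ((u⁻¹ : Fˣ) : F)) ^ 4)) := by
  sorry

end Pool.Agent.H99.KR
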