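import Pool.Agent.H99.KR.Words
import Pool.Agent.H99.KR.Fld

namespace Pool.Agent.H99.KR

section
variable {F : Type*} [Field F] [StarRing F] (V : Val F)

lemma Val.one : V.v 1 = 0 := by
  have := V.mul 1 1 one_ne_zero one_ne_zero
  simp at this; exact this

lemma Val.neg_one : V.v (-1) = 0 := by
  have := V.mul (-1) (-1) (by simp) (by simp)
  simp [V.one] at this
  omega

lemma Val.neg (x : F) (hx : x ≠ 0) : V.v (-x) = V.v x := by
  have := V.mul (-1) x (by simp) hx
  simpa [V.neg_one] using this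

lemma Val.unit (u : Fˣ) (hu : Star.star (u : F) = ((u⁻¹ : Fˣ) : F)) :
    V.v (u : F) = 0 ∧ V.v ((u⁻¹ : Fˣ) : F) = 0 := by
  have h1 := V.star (u : F)
  rw [hu] at h1
  have h2 := V.mul (u : F) ((u⁻¹ : Fˣ) : F) u.ne_zero (u⁻¹).ne_zero
  rw [Units.mul_inv, V.one] at h2
  omega

end

theorem not_concordant : ¬ Concordant birthP K U := by
  intro hc
  obtain ⟨F, _, _, u, V, hu, h2, hgen, hnv, hodd⟩ := exists_field
  have hpar := (conc_parity u hu h2 hgen hnv V K U hc).2 (by simp [K]; decide)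
  have h1u : (1 : F) - (u : F) ≠ 0 := by
    intro h; exact hgen 1 one_pos (by rw [pow_one]; exact (sub_eq_zero.1 h).symm)
  have h15 : (1 : F) - (u : F) ^ 5 ≠ 0 := by
    intro h; exact hgen 5 (by norm_num) (sub_eq_zero.1 h).symm
  have hD : Dt u K.2 ≠ 0 := hnv 4 K.2 (by decide) isKnot_K
  have hkey := Dt_K u
  have hP : (1 + ((u : F) - ((u⁻¹ : Fˣ) : F)) ^ 4) ≠ 0 := by
    intro h
    rw [h] at hkey
    simp at hkey
    rcases hkey with h | h
    · exact hD h
    · exact h1u h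
  have hui : ((u⁻¹ : Fˣ) : F) ≠ 0 := (u⁻¹).ne_zero
  have e1 := congrArg V.v hkey
  rw [V.mul _ _ hD h1u, V.mul _ _ (mul_ne_zero (pow_ne_zero _ hui) hP) h15,
    V.mul _ _ (pow_ne_zero _ hui) hP, pow_two, V.mul _ _ hui hui, (V.unit u hu).2] at e1
  have k1 : V.v (kap u K) = V.v (Dt u K.2) + V.v (1 - (u : F) ^ 5) := by
    have : kap u K = Dt u K.2 * (-(1 - (u : F) ^ 5)) := by simp [kap, K]
    rw [this, V.mul _ _ hD (neg_ne_zero.2 h15), V.neg _ h15]
  have k2 : V.v (kap u U) = V.v (1 - (u : F)) := by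
    have : kap u U = -(1 - (u : F)) := by simp [kap, U, Dt]
    rw [this, V.neg _ h1u]
  rw [k1, k2] at hpar
  rw [Int.even_iff] at hpar
  rw [Int.odd_iff] at hodd
  omega

theorem main : ∃ K : St, Even K.1 ∧ IsKnot K ∧ Concordant birthS (cover K) U ∧
    ¬ Concordant birthP K U :=
  ⟨K, by simp [K]; decide, isKnot_K, slice_K, not_concordant⟩

end Pool.Agent.H99.KR
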