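import Mathlib

/-!
# Closed braids in `S³` and in `RP³`, ribbon concordance and concordance

Conventions.  `Br m` is Artin's braid group on `m + 1` strands.

* (`S³`)  The state `⟨m, γ⟩` stands for the closure of the braid `γ` in `S³`.
* (`RP³`) Let `S³ ⊂ ℂ²`, `τ = -1`, `RP³ = S³/τ`, axis `{w = 0}`.  In the coordinates `(z, arg w)` on the
  complement of the axis `τ` is `(z, θ) ↦ (-z, θ + π)`; in the rotating frame `z' = exp(-iθ) z` it is
  `(z', θ) ↦ (z', θ + π)`.  So a geometric braid `β` on `m + 1` strands over `θ ∈ [0, π]` in the rotating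
  frame closes up to a link in `RP³`; the state `⟨m, β⟩` stands for this link.  Its preimage in `S³` is
  the closure of `β² Δ²`, where `Δ` is the half twist (one turn of the rotating frame is the full twist
  `Δ²`): this is `cover`.  The link is homologous to `m + 1` times the generator of `H₁(RP³) = ℤ/2`, so the
  class-1 knots are the states with `m` even whose permutation is an `(m+1)`-cycle.

A birth adds a small unknotted circle, split from the rest, in closed braid position: in `S³` it is one
new trivial strand; in `RP³` a closed braid which is a small circle has two strands (the two new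
outermost strands, which stand still in the non-rotating frame), and `β` becomes
`sh β · Δ_{m+2}⁻¹ · sh Δ_m`.  A band (fusion) is a factor `g σ_i^{±1} g⁻¹`.
-/

namespace Pool.Agent.H99.KR

open FreeGroup (of)

/-- Artin's relators for the braid group with generators `σ_0, …, σ_{m-1}` (`m + 1` strands). -/
def rels (m : ℕ) : Set (FreeGroup (Fin m)) :=
  {r | ∃ i j : Fin m,
    (i.val + 2 ≤ j.val ∧ r = of i * of j * (of j * of i)⁻¹) ∨
    (i.val + 1 = j.val ∧ r = of i * of j * of i * (of j * of i * of j)⁻¹)}

/-- The braid group on `m + 1` strands. -/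
abbrev Br (m : ℕ) : Type := PresentedGroup (rels m)

/-- The Artin generator `σ_i`. -/
def s {m : ℕ} (i : Fin m) : Br m := PresentedGroup.of i

/-- Homomorphisms out of the braid group. -/
def Br.lift {m : ℕ} {G : Type*} [Group G] (f : Fin m → G)
    (hc : ∀ i j : Fin m, i.val + 2 ≤ j.val → f i * f j = f j * f i)
    (hb : ∀ i j : Fin m, i.val + 1 = j.val → f i * f j * f i = f j * f i * f j) : Br m →* G :=
  PresentedGroup.toGroup (f := f) (by
    rintro r ⟨i, j, ⟨h, rfl⟩ | ⟨h, rfl⟩⟩
    · simp only [map_mul, map_inv, FreeGroup.lift_apply_of, hc i j h, mul_inv_cancel]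
    · simp only [map_mul, map_inv, FreeGroup.lift_apply_of, hb i j h, mul_inv_cancel])

@[simp] lemma Br.lift_s {m : ℕ} {G : Type*} [Group G] (f : Fin m → G) (hc) (hb) (i : Fin m) :
    Br.lift f hc hb (s i) = f i := PresentedGroup.toGroup.of _

lemma Br.hom_ext {m : ℕ} {G : Type*} [Group G] {f g : Br m →* G} (h : ∀ i, f (s i) = g (s i)) :
    f = g := PresentedGroup.ext h

lemma s_comm {m : ℕ} (i j : Fin m) (h : i.val + 2 ≤ j.val) : (s i : Br m) * s j = s j * s i := by
  have : (PresentedGroup.mk (rels m)) (of i * of j * (of j * of i)⁻¹) = 1 :=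
    PresentedGroup.one_of_mem ⟨i, j, Or.inl ⟨h, rfl⟩⟩
  rw [map_mul, map_inv, mul_inv_eq_one] at this
  simpa [s, PresentedGroup.of] using this

lemma s_braid {m : ℕ} (i j : Fin m) (h : i.val + 1 = j.val) :
    (s i : Br m) * s j * s i = s j * s i * s j := by
  have : (PresentedGroup.mk (rels m)) (of i * of j * of i * (of j * of i * of j)⁻¹) = 1 :=
    PresentedGroup.one_of_mem ⟨i, j, Or.inr ⟨h, rfl⟩⟩
  rw [map_mul, map_inv, mul_inv_eq_one] at this
  simpa [s, PresentedGroup.of] using this

/-- Add one strand on the right. -/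
def ι {m : ℕ} : Br m →* Br (m + 1) :=
  Br.lift (fun i => s i.castSucc)
    (fun i j h => s_comm _ _ (by simpa using h)) (fun i j h => s_braid _ _ (by simpa using h))

/-- Add one strand on the left and one on the right. -/
def sh {m : ℕ} : Br m →* Br (m + 2) :=
  Br.lift (fun i => s i.succ.castSucc)
    (fun i j h => s_comm _ _ (by simp; omega)) (fun i j h => s_braid _ _ (by simp; omega))

/-- `σ_m σ_{m-1} ⋯ σ_0`. -/
def desc (m : ℕ) : Br (m + 1) := ((List.finRange (m + 1)).reverse.map s).prod

/-- The half twist `Δ` on `m + 1` strands. -/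
def Δ : (m : ℕ) → Br m
  | 0 => 1
  | m + 1 => ι (Δ m) * desc m

/-- The permutation of the strands. -/
def perm {m : ℕ} : Br m →* Equiv.Perm (Fin (m + 1)) :=
  Br.lift (fun i => Equiv.swap i.castSucc i.succ)
    (fun i j h => by
      have h1 : i.castSucc ≠ j.castSucc := by simp [Fin.ext_iff]; omega
      have h2 : i.castSucc ≠ j.succ := by simp [Fin.ext_iff]; omega
      have h3 : i.succ ≠ j.castSucc := by simp [Fin.ext_iff]; omega
      have h4 : i.succ ≠ j.succ := by simp [Fin.ext_iff]; omega
      exact (Equiv.Perm.disjoint_iff_disjoint_support.2 (by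
        rw [Equiv.Perm.support_swap (by simp [Fin.ext_iff]),
          Equiv.Perm.support_swap (by simp [Fin.ext_iff])]
        simp [Finset.disjoint_left, h1, h2, h3, h4])).commute.eq)
    (fun i j h => by
      have hj : i.succ = j.castSucc := by simp [Fin.ext_iff]; omega
      rw [← hj]
      have h1 : i.castSucc ≠ i.succ := by simp [Fin.ext_iff]
      have h2 : i.succ ≠ j.succ := by simp [Fin.ext_iff]; omega
      have h3 : i.castSucc ≠ j.succ := by simp [Fin.ext_iff]; omega
      ext x
      simp only [Equiv.Perm.mul_apply, Equiv.swap_apply_def]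
      split_ifs <;> simp_all)

/-- A link given by a closed braid on `m + 1` strands (in `S³` or in `RP³`). -/
abbrev St : Type := Σ m : ℕ, Br m

/-- The closed braid has one component. -/
def IsKnot (x : St) : Prop := ∀ a b : Fin (x.1 + 1), ∃ k : ℕ, ((perm x.2) ^ k) a = b

/-- A birth in `S³`. -/
def birthS (x : St) : St := ⟨x.1 + 1, ι x.2⟩

/-- A birth in `RP³`. -/
def birthP (x : St) : St := ⟨x.1 + 2, sh x.2 * (Δ (x.1 + 2))⁻¹ * sh (Δ x.1)⟩

/-- A band: a conjugate of a generator or of its inverse. -/
def IsBand {m : ℕ} (b : Br m) : Prop :=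
  ∃ (g : Br m) (i : Fin m), b = g * s i * g⁻¹ ∨ b = g * (s i)⁻¹ * g⁻¹

/-- Ribbon concordance between knots: `y` is obtained from `x` by `k` births followed by `k` bands (up to
conjugation, i.e. isotopy of closed braids). -/
def Ribbon (birth : St → St) (x y : St) : Prop :=
  IsKnot x ∧ IsKnot y ∧ ∃ (k : ℕ) (l : List (Br (birth^[k] x).1)) (g : Br (birth^[k] x).1),
    l.length = k ∧ (∀ b ∈ l, IsBand b) ∧
      y = ⟨(birth^[k] x).1, g * ((birth^[k] x).2 * l.prod) * g⁻¹⟩

/-- Concordance: the equivalence relation generated by ribbon concordance. -/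
def Concordant (birth : St → St) : St → St → Prop := Relation.EqvGen (Ribbon birth)

/-- The unknot in `S³`, respectively the projective line `U₁` in `RP³`: the braid with one strand. -/
def U : St := ⟨0, 1⟩

/-- The preimage in `S³` of a closed braid in `RP³`. -/
def cover (x : St) : St := ⟨x.1, x.2 ^ 2 * (Δ x.1) ^ 2⟩

end Pool.Agent.H99.KR
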