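import Pool.Agent.H99.KR.Seq

/-!
# `det (1 - uⁿ ψ(g)) ≠ 0` at `u = -1` for knots with an odd number of strands

At `u = -1` the representation is the permutation representation on the sum-zero vectors with signs:
for `x : Fin m → k` put `y_i = (-1)^i x_i`, `z_0 = y_0`, `z_i = y_i - y_{i-1}`, `z_m = - y_{m-1}`; then the operator of
`s i` exchanges `z_i` and `z_{i+1}` (check on generators with `Mat_s`).  So `zmap (Mat (-1) g *ᵥ x) = zmap x ∘ (perm g)⁻¹`
(or `∘ perm g` for the opposite convention; find the right one; `perm` is a homomorphism), by induction on `g`, and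
`zmap` is injective.  If `(1 - (-1)^(m+1) Mat) x = 0` with `m` even then `Mat x = -x`, `Mat^n x = -x` with `n = m + 1` odd;
but `perm g` is an `n`-cycle, so `(perm g)^n = 1` and `Mat^n x = x` by injectivity; hence `2 x = 0`, `x = 0`.
(`IsKnot` gives `(perm g)^(m+1) = 1`: an `n`-cycle; e.g. the orbit of every point is everything, so the orbit
has length `n`.)
-/

namespace Pool.Agent.H99.KR
open Matrix

lemma perm_pow {m : ℕ} (g : Br m) (h : IsKnot ⟨m, g⟩) : (perm g) ^ (m + 1) = 1 := by
  have hc : (perm g).IsCycleOn ((Finset.univ : Finset (Fin (m + 1))) : Set (Fin (m + 1))) := by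
    refine ⟨?_, ?_⟩
    · rw [Finset.coe_univ]
      exact Set.bijOn_univ.2 (perm g).bijective
    · intro a _ b _
      obtain ⟨k, hk⟩ := h a b
      exact ⟨(k : ℤ), by rw [zpow_natCast]; exact hk⟩
  ext a
  have := hc.pow_card_apply (Finset.mem_univ a)
  rw [Finset.card_univ, Fintype.card_fin] at this
  rw [this]
  rfl

section
variable {k : Type*} [Field k]

/-- Coordinates on the sum-zero vectors. -/
def zmap {m : ℕ} (x : Fin m → k) (i : Fin (m + 1)) : k :=
  (if h : i.val < m then (-1) ^ i.val * x ⟨i.val, h⟩ else 0) -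
    (if h : 0 < i.val then (-1) ^ (i.val - 1) * x ⟨i.val - 1, by omega⟩ else 0)

lemma zmap_injective {m : ℕ} : Function.Injective (zmap (k := k) (m := m)) := by
  intro x y hxy
  have key : ∀ (n : ℕ) (hn : n < m), x ⟨n, hn⟩ = y ⟨n, hn⟩ := by
    intro n
    induction n with
    | zero =>
      intro hn
      have h := congrFun hxy ⟨0, by omega⟩
      simpa [zmap, hn] using h
    | succ n ih =>
      intro hn
      have h := congrFun hxy ⟨n + 1, by omega⟩
      have hn' := ih (by omega)
      simp only [zmap, hn, dif_pos, Nat.succ_pos, Nat.add_sub_cancel] at h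
      rw [hn'] at h
      exact mul_left_cancel₀ (pow_ne_zero _ (by simp)) (sub_left_inj.1 h)
  funext ⟨n, hn⟩
  exact key n hn

lemma zmap_s {m : ℕ} (i : Fin m) (x : Fin m → k) :
    zmap (Mat (-1 : kˣ) (s i) *ᵥ x) = fun j => zmap x ((perm (s i))⁻¹ j) := by
  have hp : perm (s i) = Equiv.swap i.castSucc i.succ := by simp [perm]
  rw [hp, Equiv.swap_inv]
  funext j
  have hM : ∀ (n : ℕ) (hn : n < m), (Mat (-1 : kˣ) (s i) *ᵥ x) ⟨n, hn⟩ = if n = i.val then
      - ((if h : 0 < i.val then x ⟨i.val - 1, by omega⟩ else 0) +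
        (if h : i.val + 1 < m then x ⟨i.val + 1, h⟩ else 0) + x i) else x ⟨n, hn⟩ := by
    intro n hn
    rw [Mat_s]
    by_cases h : n = i.val
    · rw [if_pos (Fin.ext h), if_pos h]
      simp
    · rw [if_neg (fun h' => h (congrArg Fin.val h')), if_neg h]
  unfold zmap
  by_cases h1 : j = i.castSucc
  · subst h1
    rw [Equiv.swap_apply_left]
    obtain ⟨n, hn⟩ := i
    rcases n with _ | n
    · simp only [Fin.val_castSucc, Fin.val_succ, hn, dif_pos, hM, lt_irrefl,
        dif_neg, not_false_eq_true, Nat.zero_add, Nat.zero_lt_one]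
      simp only [if_true]
      split_ifs <;> ring
    · simp only [Fin.val_castSucc, Fin.val_succ, hn, dif_pos, hM, Nat.add_sub_cancel, Nat.succ_pos]
      rw [if_neg (show ¬ (n = n + 1) by omega)]
      simp only [if_true]
      split_ifs <;> ring
  · by_cases h2 : j = i.succ
    · subst h2
      rw [Equiv.swap_apply_right]
      obtain ⟨n, hn⟩ := i
      have h3 : ¬ (n + 1 = n) := by omega
      rcases n with _ | n
      · simp only [Fin.val_castSucc, Fin.val_succ, hn, dif_pos, hM, lt_irrefl,
          dif_neg, not_false_eq_true, Nat.zero_add, Nat.zero_lt_one]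
        simp
        split_ifs <;> ring
      · simp only [Fin.val_castSucc, Fin.val_succ, hn, dif_pos, hM, Nat.add_sub_cancel, Nat.succ_pos,
          if_neg h3]
        simp only [if_true]
        split_ifs <;> ring
    · rw [Equiv.swap_apply_of_ne_of_ne h1 h2]
      have h1' : j.val ≠ i.val := fun h => h1 (Fin.ext h)
      have h2' : j.val ≠ i.val + 1 := fun h => h2 (Fin.ext h)
      congr 1
      · by_cases h : j.val < m
        · rw [dif_pos h, dif_pos h, hM, if_neg h1']
        · rw [dif_neg h, dif_neg h]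
      · by_cases h : 0 < j.val
        · rw [dif_pos h, dif_pos h, hM, if_neg (by omega)]
        · rw [dif_neg h, dif_neg h]

lemma zmap_Mat {m : ℕ} (g : Br m) (x : Fin m → k) :
    zmap (Mat (-1 : kˣ) g *ᵥ x) = fun i => zmap x ((perm g)⁻¹ i) := by
  have key : ∀ w : FreeGroup (Fin m), ∀ x : Fin m → k,
      zmap (Mat (-1 : kˣ) (PresentedGroup.mk (rels m) w) *ᵥ x) =
        fun i => zmap x ((perm (PresentedGroup.mk (rels m) w))⁻¹ i) := by
    intro w
    induction w using FreeGroup.induction_on with
    | C1 =>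
      intro x
      rw [map_one, Mat_one, Matrix.one_mulVec, map_one]
      rfl
    | of i =>
      intro x
      exact zmap_s i x
    | inv_of i h =>
      intro x
      have h1 := h (Mat (-1 : kˣ) (PresentedGroup.mk (rels m) (FreeGroup.of i))⁻¹ *ᵥ x)
      rw [Matrix.mulVec_mulVec, ← Mat_mul, mul_inv_cancel, Mat_one, Matrix.one_mulVec] at h1
      rw [map_inv, map_inv]
      funext j
      rw [h1]
      simp
    | mul a b ha hb =>
      intro x
      rw [map_mul, Mat_mul, ← Matrix.mulVec_mulVec, ha, hb, map_mul, _root_.mul_inv_rev]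
      rfl
  obtain ⟨w, rfl⟩ := PresentedGroup.mk_surjective (rels m) g
  exact key w x

lemma Dt_neg_one (h2 : (2 : k) ≠ 0) {m : ℕ} (g : Br m) (hm : Even m) (hk : IsKnot ⟨m, g⟩) :
    Dt (-1 : kˣ) g ≠ 0 := by
  intro h0
  unfold Dt at h0
  obtain ⟨x, hx, hx2⟩ := Matrix.exists_mulVec_eq_zero_iff.2 h0
  apply hx
  have hpow : (((-1 : kˣ) : k)) ^ (m + 1) = -1 := by
    rw [Units.val_neg, Units.val_one]
    exact Odd.neg_one_pow hm.add_one
  rw [hpow, Matrix.sub_mulVec, Matrix.one_mulVec, Matrix.smul_mulVec] at hx2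
  have hx3 : Mat (-1 : kˣ) g *ᵥ x = - x := by
    have := hx2
    rw [neg_one_smul, sub_neg_eq_add] at this
    exact (neg_eq_of_add_eq_zero_right this).symm
  have hz : ∀ i, zmap x ((perm g)⁻¹ i) = - zmap x i := by
    intro i
    have h1 := congrFun (zmap_Mat g x) i
    rw [← h1, hx3]
    unfold zmap
    simp only [Pi.neg_apply]
    split_ifs <;> ring
  have hz2 : ∀ n i, zmap x ((((perm g)⁻¹) ^ n) i) = (-1) ^ n * zmap x i := by
    intro n
    induction n with
    | zero => intro i; simp
    | succ n ih =>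
      intro i
      rw [pow_succ, Equiv.Perm.mul_apply, ih, hz, pow_succ]
      ring
  apply zmap_injective
  funext i
  have h3 := hz2 (m + 1) i
  rw [inv_pow, perm_pow g hk, inv_one, Equiv.Perm.one_apply, Odd.neg_one_pow hm.add_one] at h3
  have h4 : (2 : k) * zmap x i = 0 := by linear_combination h3
  rcases mul_eq_zero.1 h4 with h5 | h5
  · exact absurd h5 h2
  · rw [h5]
    simp [zmap]

end

/-- Functoriality of `Dt`. -/
lemma Dt_map {R S : Type*} [CommRing R] [CommRing S] (f : R →+* S) (u : Rˣ) {m : ℕ} (g : Br m) :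
    Dt (Units.map (f : R →* S) u) g = f (Dt u g) := by
  unfold Dt
  rw [RingHom.map_det, Mat_map]
  congr 1
  ext i j
  simp [Matrix.sub_apply, Matrix.one_apply, apply_ite f]

end Pool.Agent.H99.KR
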