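import Pool.Agent.H99.KR.Model

/-!
# The reduced Burau representation on sequences

`t = u²`.  `σ_i` acts on sequences `x : ℤ → R` by changing only the coordinate `i` into
`u (x_{i-1} + x_{i+1} - u x_i)`.  `Mat u g` is the `m × m` matrix of `g : Br m` on sequences supported in
`[0, m)`.

PROOF HINTS.  `T_comm`, `T_braid`: `ext x j`, unfold, split on `j = i`, `j = i+1`, `ring` (for the braid
relation only the coordinates `i, i+1` change; both sides agree by `ring` after `u * u⁻¹ = 1` if needed).
`rho_inc`: both sides are compatible with products (the set of `g` such that for all `x` the sequence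
`rho u a g (inc a x)` vanishes off `[a, a+m)` is a subgroup because `Br m` is generated by the `s i`:
use `PresentedGroup.induction_on`/closure induction or an induction on words), and translation invariance:
`T u (a+i)` on the translate is the translate of `T u i`.  A good way: first prove that
`rho u a g (shift x) = shift (rho u 0 g x)` where `shift x j = x (j - a)` (hom_ext on
`MulAut`-conjugates or induction), and `rho u 0 g x j = x j` for `j < 0` or `j ≥ m`.
-/

namespace Pool.Agent.H99.KR
open Matrix

section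
variable {R : Type*} [CommRing R] (u : Rˣ)

/-- The action of a generator at the coordinate `i`. -/
def T (i : ℤ) : (ℤ → R) ≃ₗ[R] (ℤ → R) where
  toFun x := Function.update x i ((u : R) * (x (i - 1) + x (i + 1) - (u : R) * x i))
  invFun x := Function.update x i (((u⁻¹ : Rˣ) : R) * (x (i - 1) + x (i + 1) - ((u⁻¹ : Rˣ) : R) * x i))
  map_add' x y := by
    ext j; by_cases h : j = i
    · subst h; simp; ring
    · simp [Function.update_of_ne h]
  map_smul' c x := by
    ext j; by_cases h : j = i
    · subst h; simp; ring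
    · simp [Function.update_of_ne h]
  left_inv x := by
    ext j; by_cases h : j = i
    · subst h
      simp
    · simp [Function.update_of_ne h]
  right_inv x := by
    ext j; by_cases h : j = i
    · subst h
      simp
    · simp [Function.update_of_ne h]

lemma T_apply (i : ℤ) (x : ℤ → R) (j : ℤ) :
    T u i x j = if j = i then (u : R) * (x (i - 1) + x (i + 1) - (u : R) * x i) else x j := by
  simp [T, Function.update_apply]

lemma T_comm (i j : ℤ) (h : i + 2 ≤ j) : T u i * T u j = T u j * T u i := by
  apply LinearEquiv.ext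
  intro x
  funext k
  simp only [LinearEquiv.mul_apply, T_apply]
  have h1 : i ≠ j := by omega
  have h2 : i - 1 ≠ j := by omega
  have h3 : i + 1 ≠ j := by omega
  have h4 : j - 1 ≠ i := by omega
  have h5 : j + 1 ≠ i := by omega
  have h6 : j ≠ i := by omega
  by_cases hk : k = i
  · subst hk
    simp [h1, h2, h3]
  · by_cases hk' : k = j
    · subst hk'
      simp [h4, h5, h6]
    · simp [hk, hk']

lemma T_braid (i : ℤ) : T u i * T u (i + 1) * T u i = T u (i + 1) * T u i * T u (i + 1) := by
  apply LinearEquiv.ext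
  intro x
  funext k
  simp only [LinearEquiv.mul_apply, T_apply]
  have h1 : i - 1 ≠ i := by omega
  have h2 : i + 1 ≠ i := by omega
  have h3 : i ≠ i + 1 := by omega
  have h4 : i - 1 ≠ i + 1 := by omega
  have h5 : i + 1 + 1 ≠ i := by omega
  have h6 : i + 1 + 1 ≠ i + 1 := by omega
  have h7 : i + 1 - 1 = i := by omega
  by_cases hk : k = i
  · subst hk
    simp only [h1, h2, h3, h4, h5, h6, h7, if_true, if_false]
    ring
  · by_cases hk' : k = i + 1
    · subst hk'
      simp only [h1, h2, h3, h4, h5, h6, h7, if_true, if_false]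
      ring
    · simp [hk, hk']

/-- The representation, generator `σ_i` acting at the coordinate `a + i`. -/
def rho (a : ℤ) {m : ℕ} : Br m →* ((ℤ → R) ≃ₗ[R] (ℤ → R)) :=
  Br.lift (fun i => T u (a + i.val))
    (fun i j h => T_comm u _ _ (by omega))
    (fun i j h => by
      have : (a + (j.val : ℤ)) = a + (i.val : ℤ) + 1 := by omega
      rw [this]; exact T_braid u _)

lemma rho_s (a : ℤ) {m : ℕ} (i : Fin m) : rho u a (s i) = T u (a + i.val) := by simp [rho]

lemma rho_ι (a : ℤ) {m : ℕ} (x : Br m) : rho u a (ι x) = rho u a x := by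
  have h : (rho u a).comp (ι (m := m)) = rho u a := by
    apply Br.hom_ext
    intro i
    rw [MonoidHom.comp_apply, ι, Br.lift_s, rho_s, rho_s]
    rfl
  exact DFunLike.congr_fun h x

lemma rho_sh (a : ℤ) {m : ℕ} (x : Br m) : rho u a (sh x) = rho u (a + 1) x := by
  have h : (rho u a).comp (sh (m := m)) = rho u (a + 1) := by
    apply Br.hom_ext
    intro i
    rw [MonoidHom.comp_apply, sh, Br.lift_s, rho_s, rho_s]
    congr 1
    simp
    ring
  exact DFunLike.congr_fun h x

/-- Extension by zero of a vector to a sequence supported in `[a, a + m)`. -/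
def inc (a : ℤ) {m : ℕ} (x : Fin m → R) (j : ℤ) : R :=
  if h : a ≤ j ∧ j < a + m then x ⟨(j - a).toNat, by omega⟩ else 0

/-- The reduced Burau matrix of `g`. -/
def Mat {m : ℕ} (g : Br m) : Matrix (Fin m) (Fin m) R :=
  fun j k => rho u 0 g (Pi.single (k.val : ℤ) 1) (j.val : ℤ)

private lemma Br_induction {m : ℕ} {P : Br m → Prop} (h1 : P 1) (hs : ∀ i, P (s i))
    (hm : ∀ g h, P g → P h → P (g * h)) (hi : ∀ g, P g → P g⁻¹) (g : Br m) : P g := by
  have hg : g ∈ Subgroup.closure (Set.range (s : Fin m → Br m)) := by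
    have : Subgroup.closure (Set.range (s : Fin m → Br m)) = ⊤ :=
      PresentedGroup.closure_range_of (rels m)
    rw [this]; trivial
  induction hg using Subgroup.closure_induction with
  | mem x hx =>
    obtain ⟨i, rfl⟩ := hx
    exact hs i
  | one => exact h1
  | mul x y _ _ hx hy => exact hm x y hx hy
  | inv x _ hx => exact hi x hx

private lemma rho_off (a : ℤ) {m : ℕ} (g : Br m) : ∀ (x : ℤ → R) (j : ℤ), (j < a ∨ a + m ≤ j) →
    rho u a g x j = x j := by
  induction g using Br_induction with
  | h1 => intro x j _; rw [map_one]; rfl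
  | hs i =>
    intro x j hj
    rw [rho_s, T_apply, if_neg]
    have := i.isLt
    omega
  | hm g h hg hh =>
    intro x j hj
    rw [map_mul, LinearEquiv.mul_apply, hg _ j hj, hh _ j hj]
  | hi g hg =>
    intro x j hj
    have h1 := hg (rho u a g⁻¹ x) j hj
    rw [← LinearEquiv.mul_apply, ← map_mul, mul_inv_cancel, map_one] at h1
    exact h1.symm

private lemma rho_shift (a : ℤ) {m : ℕ} (g : Br m) : ∀ (x : ℤ → R) (j : ℤ),
    rho u a g (fun k => x (k - a)) j = rho u 0 g x (j - a) := by
  induction g using Br_induction with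
  | h1 => intro x j; rw [map_one, map_one]; rfl
  | hs i =>
    intro x j
    rw [rho_s, rho_s, T_apply, T_apply]
    refine if_congr ?_ ?_ rfl
    · constructor
      · intro h; omega
      · intro h; omega
    · have e1 : a + (i.val : ℤ) - 1 - a = 0 + (i.val : ℤ) - 1 := by ring
      have e2 : a + (i.val : ℤ) + 1 - a = 0 + (i.val : ℤ) + 1 := by ring
      have e3 : a + (i.val : ℤ) - a = 0 + (i.val : ℤ) := by ring
      rw [e1, e2, e3]
  | hm g h hg hh =>
    intro x j
    rw [map_mul, map_mul, LinearEquiv.mul_apply, LinearEquiv.mul_apply]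
    have h1 : rho u a h (fun k => x (k - a)) = fun k => rho u 0 h x (k - a) := by
      funext k; exact hh x k
    rw [h1, hg]
  | hi g hg =>
    intro x j
    have h1 : rho u a g (fun k => rho u 0 g⁻¹ x (k - a)) = fun k => x (k - a) := by
      funext k
      rw [hg, ← LinearEquiv.mul_apply, ← map_mul, mul_inv_cancel, map_one]
      rfl
    have h2 := congrArg (rho u a g⁻¹) h1
    rw [← LinearEquiv.mul_apply, ← map_mul, inv_mul_cancel, map_one] at h2
    exact (congrFun h2 j).symm

private lemma inc_shift (a : ℤ) {m : ℕ} (x : Fin m → R) :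
    inc a x = fun k => inc 0 x (k - a) := by
  funext j
  unfold inc
  by_cases h : a ≤ j ∧ j < a + m
  · rw [dif_pos h, dif_pos (by omega)]
    congr 2
    simp
  · rw [dif_neg h, dif_neg (by omega)]

private lemma inc_at (a : ℤ) {m : ℕ} (x : Fin m → R) (k : Fin m) : inc a x (a + k.val) = x k := by
  unfold inc
  have := k.isLt
  rw [dif_pos (by omega)]
  congr 1
  apply Fin.ext
  simp

private lemma inc_zero_sum {m : ℕ} (x : Fin m → R) :
    inc 0 x = ∑ k : Fin m, x k • (Pi.single (k.val : ℤ) (1 : R) : ℤ → R) := by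
  funext j
  rw [Finset.sum_apply]
  simp only [Pi.smul_apply, smul_eq_mul]
  by_cases h : (0 : ℤ) ≤ j ∧ j < 0 + m
  · obtain ⟨k, hk⟩ : ∃ k : Fin m, j = (k.val : ℤ) := ⟨⟨j.toNat, by omega⟩, by simp; omega⟩
    subst hk
    rw [Finset.sum_eq_single k]
    · rw [Pi.single_eq_same, mul_one]
      have := inc_at (R := R) 0 x k
      rwa [zero_add] at this
    · intro b _ hb
      rw [Pi.single_eq_of_ne, mul_zero]
      intro h'
      apply hb
      apply Fin.ext
      omega
    · intro h'
      exact absurd (Finset.mem_univ _) h'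
  · unfold inc
    rw [dif_neg h]
    symm
    apply Finset.sum_eq_zero
    intro b _
    rw [Pi.single_eq_of_ne, mul_zero]
    have := b.isLt
    omega

/-- The key compatibility (includes translation invariance). -/
lemma rho_inc (a : ℤ) {m : ℕ} (g : Br m) (x : Fin m → R) :
    rho u a g (inc a x) = inc a (Mat u g *ᵥ x) := by
  have h0 : rho u 0 g (inc 0 x) = inc 0 (Mat u g *ᵥ x) := by
    funext j
    by_cases h : (0 : ℤ) ≤ j ∧ j < 0 + m
    · obtain ⟨l, hl⟩ : ∃ l : Fin m, j = (l.val : ℤ) := ⟨⟨j.toNat, by omega⟩, by simp; omega⟩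
      subst hl
      have e := inc_at (R := R) 0 (Mat u g *ᵥ x) l
      rw [zero_add] at e
      rw [e, inc_zero_sum, map_sum, Finset.sum_apply, Matrix.mulVec, dotProduct]
      apply Finset.sum_congr rfl
      intro k _
      rw [map_smul, Pi.smul_apply, smul_eq_mul, mul_comm, Mat]
    · rw [rho_off u 0 g _ j (by omega)]
      unfold inc
      rw [dif_neg h, dif_neg h]
  rw [inc_shift a x, inc_shift a (Mat u g *ᵥ x)]
  funext j
  rw [rho_shift, h0]

lemma inc_injective (a : ℤ) {m : ℕ} : Function.Injective (inc (R := R) a (m := m)) := by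
  intro x y h
  funext k
  have := congrFun h (a + k.val)
  rwa [inc_at, inc_at] at this

lemma Mat_one {m : ℕ} : Mat u (1 : Br m) = 1 := by
  ext j k
  rw [Mat, map_one, Matrix.one_apply]
  change (Pi.single (k.val : ℤ) (1 : R) : ℤ → R) (j.val : ℤ) = _
  by_cases h : j = k
  · subst h
    rw [Pi.single_eq_same, if_pos rfl]
  · rw [Pi.single_eq_of_ne, if_neg h]
    intro h'
    apply h
    apply Fin.ext
    omega

lemma Mat_mul {m : ℕ} (g h : Br m) : Mat u (g * h) = Mat u g * Mat u h := by
  have key : ∀ x : Fin m → R, Mat u (g * h) *ᵥ x = (Mat u g * Mat u h) *ᵥ x := by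
    intro x
    apply inc_injective (R := R) 0
    rw [← rho_inc, map_mul, LinearEquiv.mul_apply, rho_inc, rho_inc, Matrix.mulVec_mulVec]
  exact Matrix.ext_of_mulVec_single fun k => key _

/-- The matrix of a generator. -/
lemma Mat_s {m : ℕ} (i : Fin m) (x : Fin m → R) (j : Fin m) :
    (Mat u (s i) *ᵥ x) j = if j = i then
      (u : R) * ((if h : 0 < i.val then x ⟨i.val - 1, by omega⟩ else 0) +
        (if h : i.val + 1 < m then x ⟨i.val + 1, h⟩ else 0) - (u : R) * x i) else x j := by
  have hi := i.isLt
  have h0 : (Mat u (s i) *ᵥ x) j = inc 0 (Mat u (s i) *ᵥ x) (0 + j.val) := (inc_at 0 _ j).symm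
  rw [h0, ← rho_inc, rho_s, T_apply]
  have e0 : ∀ k : Fin m, inc 0 x ((0 : ℤ) + k.val) = x k := inc_at 0 x
  by_cases h : j = i
  · subst h
    rw [if_pos rfl, if_pos rfl, e0]
    have e1 : inc 0 x ((0 : ℤ) + (j.val : ℤ) - 1) =
        if h : 0 < j.val then x ⟨j.val - 1, by omega⟩ else 0 := by
      by_cases h1 : 0 < j.val
      · rw [dif_pos h1, ← e0 ⟨j.val - 1, by omega⟩]
        congr 1
        simp
        omega
      · rw [dif_neg h1]
        unfold inc
        rw [dif_neg (by omega)]
    have e2 : inc 0 x ((0 : ℤ) + (j.val : ℤ) + 1) =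
        if h : j.val + 1 < m then x ⟨j.val + 1, h⟩ else 0 := by
      by_cases h1 : j.val + 1 < m
      · rw [dif_pos h1, ← e0 ⟨j.val + 1, h1⟩]
        congr 1
      · rw [dif_neg h1]
        unfold inc
        rw [dif_neg (by omega)]
    rw [e1, e2]
  · have h' : ¬ ((0 : ℤ) + (j.val : ℤ) = 0 + (i.val : ℤ)) := by
      intro h2
      apply h
      apply Fin.ext
      omega
    rw [if_neg h', if_neg h, e0]

/-- Functoriality. -/
lemma Mat_map {S : Type*} [CommRing S] (f : R →+* S) {m : ℕ} (g : Br m) :
    Mat (Units.map (f : R →* S) u) g = (Mat u g).map f := by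
  have key : ∀ (x : ℤ → R) (j : ℤ),
      rho (Units.map (f : R →* S) u) 0 g (fun k => f (x k)) j = f (rho u 0 g x j) := by
    induction g using Br_induction with
    | h1 => intro x j; rw [map_one, map_one]; rfl
    | hs i =>
      intro x j
      rw [rho_s, rho_s, T_apply, T_apply]
      by_cases h : j = (0 : ℤ) + (i.val : ℤ)
      · rw [if_pos h, if_pos h]
        simp
      · rw [if_neg h, if_neg h]
    | hm g h hg hh =>
      intro x j
      rw [map_mul, map_mul, LinearEquiv.mul_apply, LinearEquiv.mul_apply]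
      have h1 : rho (Units.map (f : R →* S) u) 0 h (fun k => f (x k)) =
          fun k => f (rho u 0 h x k) := by
        funext k; exact hh x k
      rw [h1, hg]
    | hi g hg =>
      intro x j
      have h1 : rho (Units.map (f : R →* S) u) 0 g (fun k => f (rho u 0 g⁻¹ x k)) =
          fun k => f (x k) := by
        funext k
        rw [hg, ← LinearEquiv.mul_apply, ← map_mul, mul_inv_cancel, map_one]
        rfl
      have h2 := congrArg (rho (Units.map (f : R →* S) u) 0 g⁻¹) h1
      rw [← LinearEquiv.mul_apply, ← map_mul, inv_mul_cancel, map_one] at h2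
      exact (congrFun h2 j).symm
  ext j k
  rw [Matrix.map_apply, Mat, Mat, ← key]
  have hx : (Pi.single (k.val : ℤ) (1 : S) : ℤ → S) =
      fun l => f ((Pi.single (k.val : ℤ) (1 : R) : ℤ → R) l) := by
    funext l
    by_cases h : l = (k.val : ℤ)
    · subst h
      rw [Pi.single_eq_same, Pi.single_eq_same, map_one]
    · rw [Pi.single_eq_of_ne h, Pi.single_eq_of_ne h, map_zero]
  rw [hx]

/-- The determinant `det(1 - uⁿ ψ(g))`, `n = m + 1`. -/
def Dt {m : ℕ} (g : Br m) : R := (1 - ((u : R) ^ (m + 1)) • Mat u g).det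

end

end Pool.Agent.H99.KR
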