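import Pool.Agent.H99.KR.DetK

/-!
# The lift of the example is a ribbon knot

In `Br 4` (generators 0-indexed): `(cover K).2 = b₁ b₂ b₃ b₄` with the four bands below.  (Checked by computer with the
Artin action on the free group: the word `K² Δ² (b₁b₂b₃b₄)⁻¹` of length 96 is trivial in the braid group.)

PROOF HINT.  Write a small verified rewriting checker: words = `List (ℕ × Bool)` or `List ℤ`, elementary steps at a position
(cancel `a a⁻¹`, insert `a a⁻¹`, commute letters with `|i-j| ≥ 2`, and for adjacent indices the step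
`a^e b^d ↦ b^{-e} a^d b^e a^e` and its variants), a function `run : List Step → Word → Word`, soundness (the value in `Br 4` does
not change), and a certificate produced by a computer (handle reduction, every handle move written with these steps), checked
by `decide`/`rfl`.  Alternative: products of explicit short identities by hand.
Then `slice_K`: `EqvGen.symm (rel ..)` from `Ribbon birthS U (cover K)` with `k = 4`, `g = 1`
(`birthS^[4] U = ⟨4, 1⟩`: `ι 1 = 1`), `IsKnot U` trivial, `IsKnot (cover K)` by evaluating `perm`.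
-/

namespace Pool.Agent.H99.KR

/-- The four bands (0-indexed generators of `Br 4`). -/
def b₁ : Br 4 :=
  ((s 0)⁻¹ * (s 0)⁻¹ * (s 1)⁻¹ * (s 3)⁻¹ * s 2) * (s 1)⁻¹ * ((s 0)⁻¹ * (s 0)⁻¹ * (s 1)⁻¹ * (s 3)⁻¹ * s 2)⁻¹
def b₂ : Br 4 := ((s 0)⁻¹ * s 1 * s 1) * s 0 * ((s 0)⁻¹ * s 1 * s 1)⁻¹
def b₃ : Br 4 :=
  ((s 3)⁻¹ * (s 3)⁻¹ * s 2 * (s 0)⁻¹ * s 1) * s 0 * ((s 3)⁻¹ * (s 3)⁻¹ * s 2 * (s 0)⁻¹ * s 1)⁻¹
def b₄ : Br 4 :=
  ((s 3)⁻¹ * (s 1)⁻¹ * s 2 * (s 3)⁻¹ * s 2) * (s 1)⁻¹ * ((s 3)⁻¹ * (s 1)⁻¹ * s 2 * (s 3)⁻¹ * s 2)⁻¹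

theorem cover_K_eq : (cover K).2 = b₁ * b₂ * b₃ * b₄ := by
  sorry

theorem slice_K : Concordant birthS (cover K) U := by
  sorry

end Pool.Agent.H99.KR
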